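import Pool.Agent.H16.P3.Comb

/-!
# Brun-Hooley weights: the chains of intervals
-/

set_option autoImplicit false

namespace Pool.Agent.H16.P3

open Finset

/-- the elements with logarithm at most `t` -/
noncomputable def RQ (Q : Finset ℕ) (t : ℝ) : Finset ℕ := Q.filter (fun p : ℕ => Real.log p ≤ t)

/-- the elements with logarithm in `(s, t]` -/
noncomputable def IQ (Q : Finset ℕ) (s t : ℝ) : Finset ℕ := Q.filter (fun p : ℕ => s < Real.log p ∧ Real.log p ≤ t)

lemma RQ_union (Q : Finset ℕ) (s t : ℝ) (h : s ≤ t) : RQ Q s ∪ IQ Q s t = RQ Q t := by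
  ext p
  simp only [RQ, IQ, mem_union, mem_filter]
  constructor
  · rintro (⟨h1, h2⟩ | ⟨h1, h2, h3⟩)
    · exact ⟨h1, h2.trans h⟩
    · exact ⟨h1, h3⟩
  · rintro ⟨h1, h2⟩
    rcases le_or_gt (Real.log p) s with h3 | h3
    · exact Or.inl ⟨h1, h3⟩
    · exact Or.inr ⟨h1, h3, h2⟩

lemma RQ_disj (Q : Finset ℕ) (s t : ℝ) : Disjoint (RQ Q s) (IQ Q s t) := by
  rw [disjoint_left]
  intro p h1 h2
  simp only [RQ, IQ, mem_filter] at h1 h2
  linarith [h1.2, h2.2.1]

/-- the constants of the local error terms -/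
noncomputable def Xb (b : ℕ) : ℝ := (0.694 : ℝ) ^ (b + 1) / ((b + 1).factorial : ℝ) * 2.0018

lemma Xb_nonneg (b : ℕ) : 0 ≤ Xb b := by
  unfold Xb
  positivity

/-- the hypotheses on the densities -/
structure Dens (Q : Finset ℕ) (a : ℕ → ℝ) : Prop where
  pos : ∀ p ∈ Q, 0 < p
  nn : ∀ p ∈ Q, 0 ≤ a p
  small : ∀ p ∈ Q, a p ≤ 0.00001
  sum : ∀ s t : ℝ, 0 < s → s ≤ t → ∑ p ∈ IQ Q s t, a p ≤ Real.log (t / s) + 0.00001

lemma log_two_ub : Real.log 2 ≤ 0.6931472 := by
  have := Real.log_two_lt_d9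
  linarith

lemma exp_ub : Real.exp 0.694 ≤ 2.0018 := by
  have h1 : (0.694 : ℝ) = Real.log 2 + (0.694 - Real.log 2) := by ring
  have h2 : 0.694 - Real.log 2 ≤ 0.00086 := by
    have := Real.log_two_gt_d9
    linarith
  have h3 : 0 ≤ 0.694 - Real.log 2 := by
    have := Real.log_two_lt_d9
    linarith
  rw [h1, Real.exp_add, Real.exp_log (by norm_num)]
  have h4 : Real.exp (0.694 - Real.log 2) ≤ Real.exp 0.00086 := Real.exp_le_exp.2 h2
  have h5 : Real.exp (0.00086 : ℝ) ≤ 1.0009 := by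
    have := Real.exp_bound_div_one_sub_of_interval (x := 0.00086) (by norm_num) (by norm_num)
    refine this.trans ?_
    norm_num
  linarith

lemma prod_lower (I : Finset ℕ) (a : ℕ → ℝ) (h0 : ∀ p ∈ I, 0 ≤ a p) (h1 : ∀ p ∈ I, a p ≤ 0.00001) :
    Real.exp (-(1.0001 * ∑ p ∈ I, a p)) ≤ ∏ p ∈ I, (1 - a p) := by
  have h : Real.exp (-(1.0001 * ∑ p ∈ I, a p)) = ∏ p ∈ I, Real.exp (-(1.0001 * a p)) := by
    rw [← Real.exp_sum, mul_sum, ← sum_neg_distrib]
  rw [h]
  apply Finset.prod_le_prod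
  · intro p _
    exact (Real.exp_pos _).le
  · intro p hp
    have ha0 := h0 p hp
    have ha1 := h1 p hp
    -- exp(-c) ≤ 1/(1+c)
    have h2 : Real.exp (-(1.0001 * a p)) ≤ 1 / (1 + 1.0001 * a p) := by
      rw [Real.exp_neg, one_div]
      apply inv_anti₀ (by positivity)
      have := Real.add_one_le_exp (1.0001 * a p)
      linarith
    refine h2.trans ?_
    rw [div_le_iff₀ (by positivity)]
    nlinarith

variable {Q : Finset ℕ} {a : ℕ → ℝ}

lemma Dens.le_one (hd : Dens Q a) : ∀ p ∈ Q, 0 ≤ a p ∧ a p ≤ 1 := fun p hp =>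
  ⟨hd.nn p hp, (hd.small p hp).trans (by norm_num)⟩

lemma Dens.half (hd : Dens Q a) (t : ℝ) (ht : 0 < t) (b : ℕ) :
    (∑ p ∈ IQ Q (t / 2) t, a p) ^ (b + 1) / ((b + 1).factorial : ℝ) ≤
      Xb b * ∏ p ∈ IQ Q (t / 2) t, (1 - a p) := by
  have hsub : ∀ p ∈ IQ Q (t / 2) t, p ∈ Q := fun p hp => (mem_filter.1 hp).1
  have h0 : 0 ≤ ∑ p ∈ IQ Q (t / 2) t, a p := sum_nonneg fun p hp => hd.nn p (hsub p hp)
  have h1 := hd.sum (t / 2) t (by positivity) (by linarith)
  have e : t / (t / 2) = 2 := by field_simp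
  rw [e] at h1
  have h2 := log_two_ub
  have h3 : ∑ p ∈ IQ Q (t / 2) t, a p ≤ 0.69317 := by linarith
  have h4 := prod_lower (IQ Q (t / 2) t) a (fun p hp => hd.nn p (hsub p hp)) (fun p hp => hd.small p (hsub p hp))
  have h5 : 1 ≤ 2.0018 * ∏ p ∈ IQ Q (t / 2) t, (1 - a p) := by
    have h6 : Real.exp (-0.694) ≤ ∏ p ∈ IQ Q (t / 2) t, (1 - a p) := by
      refine le_trans (Real.exp_le_exp.2 ?_) h4
      nlinarith
    have h7 := exp_ub
    have h8 : Real.exp 0.694 * Real.exp (-0.694) = 1 := by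
      rw [← Real.exp_add, add_neg_cancel, Real.exp_zero]
    have h9 := Real.exp_pos (-0.694)
    nlinarith
  have h10 : (∑ p ∈ IQ Q (t / 2) t, a p) ^ (b + 1) ≤ 0.694 ^ (b + 1) :=
    pow_le_pow_left₀ h0 (by linarith) _
  unfold Xb
  calc (∑ p ∈ IQ Q (t / 2) t, a p) ^ (b + 1) / ((b + 1).factorial : ℝ) ≤
      (0.694 : ℝ) ^ (b + 1) / ((b + 1).factorial : ℝ) := by gcongr
    _ ≤ (0.694 : ℝ) ^ (b + 1) / ((b + 1).factorial : ℝ) * (2.0018 * ∏ p ∈ IQ Q (t / 2) t, (1 - a p)) :=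
        le_mul_of_one_le_right (by positivity) h5
    _ = _ := by ring

/-- one step of the chain, upper weights -/
lemma up_one (hd : Dens Q a) (t : ℝ) (ht : 0 < t) (b : ℕ) (hb : Even b) (D F : ℝ) (hF : 0 ≤ F)
    (h : Up (RQ Q (t / 2)) a D F) : Up (RQ Q t) a (Real.exp t ^ b * D) (F * (1 + Xb b)) := by
  rw [← RQ_union Q (t / 2) t (by linarith)]
  apply Up_step _ _ (RQ_disj Q _ _) a _ D F (Real.exp t) (Xb b) (Real.one_le_exp ht.le) hF _ b hb
    (hd.half t ht b) h
  · intro p hp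
    rw [RQ_union Q (t / 2) t (by linarith)] at hp
    exact hd.le_one p (mem_filter.1 hp).1
  · intro p hp
    obtain ⟨h1, h2⟩ := mem_filter.1 hp
    have : (0 : ℝ) < p := by exact_mod_cast hd.pos p h1
    rw [← Real.exp_log this]
    exact Real.exp_le_exp.2 h2.2

/-- one step of the chain, lower weights -/
lemma lo_one (hd : Dens Q a) (t : ℝ) (ht : 0 < t) (b : ℕ) (hb : Even b) (D Y e B : ℝ) (hD : 0 ≤ D)
    (hY : Y ≤ Real.exp t) (h : Lo (RQ Q (t / 2)) a D Y e B) :
    Lo (RQ Q t) a (Real.exp t ^ b * D) (Real.exp t) (e + Xb b) (B + 1) := by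
  rw [← RQ_union Q (t / 2) t (by linarith)]
  apply Lo_step _ _ (RQ_disj Q _ _) a _ D Y e B (Real.exp t) (Xb b) hD hY (Real.one_le_exp ht.le) _ (Xb_nonneg b)
    b hb (hd.half t ht b) h
  · intro p hp
    rw [RQ_union Q (t / 2) t (by linarith)] at hp
    exact hd.le_one p (mem_filter.1 hp).1
  · intro p hp
    obtain ⟨h1, h2⟩ := mem_filter.1 hp
    have : (0 : ℝ) < p := by exact_mod_cast hd.pos p h1
    rw [← Real.exp_log this]
    exact Real.exp_le_exp.2 h2.2

/-- three steps with the same parameter -/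
lemma up_three (hd : Dens Q a) (t : ℝ) (ht : 0 < t) (b : ℕ) (hb : Even b) (K F : ℝ) (hF : 0 ≤ F)
    (h : Up (RQ Q (t / 8)) a (Real.exp (t / 8 * K)) F) :
    Up (RQ Q t) a (Real.exp (t * (1.75 * b + K / 8))) (F * Real.exp (3 * Xb b)) := by
  have hx := Xb_nonneg b
  have q8 : t / 4 / 2 = t / 8 := by ring
  have q4 : t / 2 / 2 = t / 4 := by ring
  have h1 := up_one hd (t / 4) (by positivity) b hb (Real.exp (t / 8 * K)) F hF (by rw [q8]; exact h)
  have h2 := up_one hd (t / 2) (by positivity) b hb (Real.exp (t / 4) ^ b * Real.exp (t / 8 * K)) (F * (1 + Xb b))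
    (by positivity) (by rw [q4]; exact h1)
  have h3 := up_one hd t ht b hb _ _ (by positivity) h2
  apply Up_mono _ _ _ h3
  · intro p hp
    exact (hd.le_one p (mem_filter.1 hp).1).2
  · apply le_of_eq
    rw [← Real.exp_nat_mul, ← Real.exp_nat_mul, ← Real.exp_nat_mul, ← Real.exp_add, ← Real.exp_add, ← Real.exp_add]
    congr 1
    ring
  · have e1 : Real.exp (3 * Xb b) = Real.exp (Xb b) * Real.exp (Xb b) * Real.exp (Xb b) := by
      rw [← Real.exp_add, ← Real.exp_add]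
      congr 1
      ring
    have e2 : 1 + Xb b ≤ Real.exp (Xb b) := by
      have := Real.add_one_le_exp (Xb b)
      linarith
    rw [e1]
    have : (1 + Xb b) * (1 + Xb b) * (1 + Xb b) ≤ Real.exp (Xb b) * Real.exp (Xb b) * Real.exp (Xb b) := by
      gcongr
    calc F * (1 + Xb b) * (1 + Xb b) * (1 + Xb b) = F * ((1 + Xb b) * (1 + Xb b) * (1 + Xb b)) := by ring
      _ ≤ _ := mul_le_mul_of_nonneg_left this hF

lemma lo_three (hd : Dens Q a) (t : ℝ) (ht : 0 < t) (b : ℕ) (hb : Even b) (K e B : ℝ)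
    (h : Lo (RQ Q (t / 8)) a (Real.exp (t / 8 * K)) (Real.exp (t / 8)) e B) :
    Lo (RQ Q t) a (Real.exp (t * (1.75 * b + K / 8))) (Real.exp t) (e + 3 * Xb b) (B + 3) := by
  have q8 : t / 4 / 2 = t / 8 := by ring
  have q4 : t / 2 / 2 = t / 4 := by ring
  have h1 := lo_one hd (t / 4) (by positivity) b hb (Real.exp (t / 8 * K)) (Real.exp (t / 8)) e B (by positivity)
    (Real.exp_le_exp.2 (by linarith)) (by rw [q8]; exact h)
  have h2 := lo_one hd (t / 2) (by positivity) b hb (Real.exp (t / 4) ^ b * Real.exp (t / 8 * K)) (Real.exp (t / 4))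
    (e + Xb b) (B + 1) (by positivity) (Real.exp_le_exp.2 (by linarith)) (by rw [q4]; exact h1)
  have h3 := lo_one hd t ht b hb _ _ _ _ (by positivity) (Real.exp_le_exp.2 (by linarith)) h2
  have e1 : Real.exp t ^ b * (Real.exp (t / 2) ^ b * (Real.exp (t / 4) ^ b * Real.exp (t / 8 * K))) =
      Real.exp (t * (1.75 * b + K / 8)) := by
    rw [← Real.exp_nat_mul, ← Real.exp_nat_mul, ← Real.exp_nat_mul, ← Real.exp_add, ← Real.exp_add, ← Real.exp_add]
    congr 1
    ring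
  have e2 : e + Xb b + Xb b + Xb b = e + 3 * Xb b := by ring
  have e3 : B + 1 + 1 + 1 = B + 3 := by ring
  rw [e1, e2, e3] at h3
  exact h3

lemma Xb_ratio (b : ℕ) (hb : 4 ≤ b) : 3.1 * Xb (b + 2) ≤ 0.1 * Xb b := by
  have hb' : (4 : ℝ) ≤ b := by exact_mod_cast hb
  have e : Xb (b + 2) = Xb b * (0.694 ^ 2 / (((b : ℝ) + 2) * (b + 3))) := by
    unfold Xb
    have h1 : b + 2 + 1 = (b + 1) + 1 + 1 := by ring
    rw [h1, Nat.factorial_succ, Nat.factorial_succ]
    push_cast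
    have hf : ((b + 1).factorial : ℝ) ≠ 0 := by exact_mod_cast (Nat.factorial_pos _).ne'
    field_simp
    ring
  rw [e]
  have h2 : (0.694 : ℝ) ^ 2 / (((b : ℝ) + 2) * (b + 3)) ≤ 0.1 / 3.1 := by
    rw [div_le_div_iff₀ (by positivity) (by norm_num)]
    nlinarith
  have h3 := Xb_nonneg b
  have h4 := mul_le_mul_of_nonneg_left h2 h3
  linarith

/-- the tail of the chain, upper weights -/
lemma up_tail (hd : Dens Q a) (m : ℕ) : ∀ (t : ℝ) (c : ℕ), 0 < t → Even c → 4 ≤ c → RQ Q (t / 8 ^ m) = ∅ →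
    Up (RQ Q t) a (Real.exp (t * (2 * c + 4 / 7))) (Real.exp (3.1 * Xb c)) := by
  induction m with
  | zero =>
    intro t c ht _ _ h
    rw [pow_zero, div_one] at h
    rw [h]
    apply Up_mono _ _ _ (Up_empty a)
    · simp
    · apply Real.one_le_exp
      positivity
    · apply Real.one_le_exp
      have := Xb_nonneg c
      positivity
  | succ m ih =>
    intro t c ht hc hc4 h
    have h1 := ih (t / 8) (c + 2) (by positivity) (hc.add (by norm_num)) (by omega) (by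
      rw [div_div, ← pow_succ']
      exact h)
    have h2 := up_three hd t ht c hc (2 * (c + 2 : ℕ) + 4 / 7) _ (Real.exp_pos _).le h1
    apply Up_mono _ _ _ h2
    · intro p hp
      exact (hd.le_one p (mem_filter.1 hp).1).2
    · apply Real.exp_le_exp.2
      apply le_of_eq
      push_cast
      ring
    · rw [← Real.exp_add]
      apply Real.exp_le_exp.2
      have := Xb_ratio c hc4
      linarith

/-- the tail of the chain, lower weights -/
lemma lo_tail (hd : Dens Q a) (m : ℕ) : ∀ (t : ℝ) (c : ℕ), 0 < t → Even c → 4 ≤ c → RQ Q (t / 8 ^ m) = ∅ →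
    Lo (RQ Q t) a (Real.exp (t * (2 * c + 4 / 7))) (Real.exp t) (3.1 * Xb c) (3 * m) := by
  induction m with
  | zero =>
    intro t c ht _ _ h
    rw [pow_zero, div_one] at h
    rw [h]
    obtain ⟨l1, l2, h1, h2, h3, h4, h5, h6, h7, h8⟩ := Lo_empty a
    have hx := Xb_nonneg c
    refine ⟨l1, l2, h1, fun U => ⟨(h2 U).1, by have := (h2 U).2; simpa using this⟩, ?_, ?_, h5, h6, h7, ?_⟩
    · intro U hU hl
      refine (h3 U hU hl).trans (Real.one_le_exp (by positivity))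
    · intro U hU hl
      refine (h4 U hU hl).trans ?_
      rw [mul_one]
      have e1 : 1 ≤ Real.exp t := Real.one_le_exp ht.le
      have e2 : 1 ≤ Real.exp (t * (2 * (c : ℝ) + 4 / 7)) := Real.one_le_exp (by positivity)
      nlinarith
    · have h9 : 0 ≤ gen ∅ l1 a := by
        refine le_trans ?_ h6
        simp
      have h10 : gen ∅ l2 a ≤ 0 := by simpa using h8
      have : 0 ≤ 3.1 * Xb c * gen ∅ l1 a := by positivity
      linarith
  | succ m ih =>
    intro t c ht hc hc4 h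
    have h1 := ih (t / 8) (c + 2) (by positivity) (hc.add (by norm_num)) (by omega) (by
      rw [div_div, ← pow_succ']
      exact h)
    have h2 := lo_three hd t ht c hc (2 * (c + 2 : ℕ) + 4 / 7) _ _ h1
    have e1 : t * (1.75 * (c : ℝ) + (2 * ((c + 2 : ℕ) : ℝ) + 4 / 7) / 8) = t * (2 * c + 4 / 7) := by
      push_cast
      ring
    rw [e1] at h2
    obtain ⟨l1, l2, q1, q2, q3, q4, q5, q6, q7, q8⟩ := h2
    refine ⟨l1, l2, q1, fun U => ⟨(q2 U).1, ?_⟩, q3, q4, q5, q6, q7, q8.trans ?_⟩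
    · have := (q2 U).2
      push_cast
      linarith
    · apply mul_le_mul_of_nonneg_right
      · have := Xb_ratio c hc4
        linarith
      · refine le_trans ?_ q6
        exact prod_nonneg fun p hp => by linarith [(hd.le_one p (mem_filter.1 hp).1).2]

end Pool.Agent.H16.P3
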