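import Mathlib

/-!
# Brun-Hooley weights: combinatorics
-/

set_option autoImplicit false

namespace Pool.Agent.H16.P3

open Finset

/-- generating sum of a weight on subsets -/
noncomputable def gen (R : Finset ℕ) (l : Finset ℕ → ℝ) (a : ℕ → ℝ) : ℝ :=
  ∑ U ∈ R.powerset, l U * ∏ p ∈ U, a p

/-- indicator of a set -/
noncomputable def ind (S : Finset ℕ) (p : ℕ) : ℝ := if p ∈ S then 1 else 0

/-- the product of two weights on disjoint sets -/
noncomputable def tens (R I : Finset ℕ) (l e : Finset ℕ → ℝ) (U : Finset ℕ) : ℝ := l (U ∩ R) * e (U ∩ I)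

lemma gen_tens (R I : Finset ℕ) (h : Disjoint R I) (l e : Finset ℕ → ℝ) (a : ℕ → ℝ) :
    gen (R ∪ I) (tens R I l e) a = gen R l a * gen I e a := by
  unfold gen
  rw [sum_mul_sum, ← sum_product']
  symm
  apply sum_bij' (fun (UV : Finset ℕ × Finset ℕ) _ => UV.1 ∪ UV.2) (fun W _ => (W ∩ R, W ∩ I))
  · rintro ⟨U, V⟩ hUV
    rw [mem_product, mem_powerset, mem_powerset] at hUV
    exact mem_powerset.2 (union_subset_union hUV.1 hUV.2)
  · intro W hW
    rw [mem_product, mem_powerset, mem_powerset]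
    exact ⟨inter_subset_right, inter_subset_right⟩
  · rintro ⟨U, V⟩ hUV
    rw [mem_product, mem_powerset, mem_powerset] at hUV
    obtain ⟨hU, hV⟩ := hUV
    simp only at hU hV
    have h1 : (U ∪ V) ∩ R = U := by
      ext p
      simp only [mem_inter, mem_union]
      constructor
      · rintro ⟨h1 | h1, h2⟩
        · exact h1
        · exact absurd (hV h1) (disjoint_left.1 h h2)
      · intro h1
        exact ⟨Or.inl h1, hU h1⟩
    have h2 : (U ∪ V) ∩ I = V := by
      ext p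
      simp only [mem_inter, mem_union]
      constructor
      · rintro ⟨h1 | h1, h2⟩
        · exact absurd h2 (disjoint_left.1 h (hU h1))
        · exact h1
      · intro h1
        exact ⟨Or.inr h1, hV h1⟩
    simp only [h1, h2]
  · intro W hW
    rw [mem_powerset] at hW
    simp only
    rw [← inter_union_distrib_left]
    exact inter_eq_left.2 hW
  · rintro ⟨U, V⟩ hUV
    rw [mem_product, mem_powerset, mem_powerset] at hUV
    obtain ⟨hU, hV⟩ := hUV
    simp only at hU hV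
    have h1 : (U ∪ V) ∩ R = U := by
      ext p
      simp only [mem_inter, mem_union]
      constructor
      · rintro ⟨h1 | h1, h2⟩
        · exact h1
        · exact absurd (hV h1) (disjoint_left.1 h h2)
      · intro h1
        exact ⟨Or.inl h1, hU h1⟩
    have h2 : (U ∪ V) ∩ I = V := by
      ext p
      simp only [mem_inter, mem_union]
      constructor
      · rintro ⟨h1 | h1, h2⟩
        · exact absurd h2 (disjoint_left.1 h (hU h1))
        · exact h1
      · intro h1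
        exact ⟨Or.inr h1, hV h1⟩
    unfold tens
    simp only [h1, h2]
    rw [prod_union (disjoint_of_subset_left hU (disjoint_of_subset_right hV h))]
    ring

/-- probability of a random subset -/
noncomputable def prb (R : Finset ℕ) (a : ℕ → ℝ) (S : Finset ℕ) : ℝ :=
  (∏ p ∈ S, a p) * ∏ p ∈ R \ S, (1 - a p)

lemma prb_nonneg (R : Finset ℕ) (a : ℕ → ℝ) (ha : ∀ p ∈ R, 0 ≤ a p ∧ a p ≤ 1) (S : Finset ℕ) (hS : S ⊆ R) :
    0 ≤ prb R a S :=
  mul_nonneg (prod_nonneg fun p hp => (ha p (hS hp)).1)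
    (prod_nonneg fun p hp => by have := (ha p (mem_sdiff.1 hp).1).2; linarith)

lemma gen_expect (R : Finset ℕ) (l : Finset ℕ → ℝ) (a : ℕ → ℝ) :
    gen R l a = ∑ S ∈ R.powerset, prb R a S * gen R l (ind S) := by
  unfold gen
  simp only [mul_sum]
  rw [sum_comm]
  apply sum_congr rfl
  intro U hU
  rw [mem_powerset] at hU
  have h1 : ∏ p ∈ U, a p = ∏ p ∈ R, (a p + (if p ∈ U then 0 else 1 - a p)) := by
    rw [← prod_sdiff hU]
    have e1 : ∏ p ∈ R \ U, (a p + (if p ∈ U then 0 else 1 - a p)) = 1 := by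
      apply prod_eq_one
      intro p hp
      rw [if_neg (mem_sdiff.1 hp).2]
      ring
    rw [e1, one_mul]
    apply prod_congr rfl
    intro p hp
    rw [if_pos hp, add_zero]
  rw [h1, prod_add, mul_sum]
  apply sum_congr rfl
  intro S hS
  rw [mem_powerset] at hS
  have h2 : ∏ p ∈ U, ind S p = if U ⊆ S then 1 else 0 := by
    split_ifs with h
    · apply prod_eq_one
      intro p hp
      unfold ind
      rw [if_pos (h hp)]
    · obtain ⟨p, hp, hp'⟩ := not_subset.1 h
      apply prod_eq_zero hp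
      unfold ind
      rw [if_neg hp']
  rw [h2]
  unfold prb
  split_ifs with h
  · have : ∏ p ∈ R \ S, (if p ∈ U then 0 else 1 - a p) = ∏ p ∈ R \ S, (1 - a p) := by
      apply prod_congr rfl
      intro p hp
      rw [if_neg (fun h' => (mem_sdiff.1 hp).2 (h h'))]
    rw [this]
    ring
  · obtain ⟨p, hp, hp'⟩ := not_subset.1 h
    have : ∏ p ∈ R \ S, (if p ∈ U then 0 else 1 - a p) = 0 := by
      apply prod_eq_zero (mem_sdiff.2 ⟨hU hp, hp'⟩)
      rw [if_pos hp]
    rw [this]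
    ring

/-- truncated inclusion-exclusion -/
noncomputable def eb (b : ℕ) (U : Finset ℕ) : ℝ := if U.card ≤ b then (-1) ^ U.card else 0

/-- elementary symmetric weight -/
noncomputable def sb (b : ℕ) (U : Finset ℕ) : ℝ := if U.card = b + 1 then 1 else 0

lemma gen_ind (R S : Finset ℕ) (l : Finset ℕ → ℝ) : gen R l (ind S) = ∑ U ∈ (R ∩ S).powerset, l U := by
  unfold gen
  have h : (R ∩ S).powerset = R.powerset.filter (fun U => U ⊆ S) := by
    ext U
    rw [mem_powerset, mem_filter, mem_powerset, subset_inter_iff]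
  rw [h, sum_filter]
  apply sum_congr rfl
  intro U _
  have h2 : ∏ p ∈ U, ind S p = if U ⊆ S then 1 else 0 := by
    split_ifs with h
    · apply prod_eq_one
      intro p hp
      unfold ind
      rw [if_pos (h hp)]
    · obtain ⟨p, hp, hp'⟩ := not_subset.1 h
      apply prod_eq_zero hp
      unfold ind
      rw [if_neg hp']
  rw [h2]
  split_ifs <;> simp

lemma sum_card (W : Finset ℕ) (f : ℕ → ℝ) : ∑ U ∈ W.powerset, f U.card =
    ∑ i ∈ range (W.card + 1), (W.card.choose i : ℝ) * f i := by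
  rw [sum_powerset]
  apply sum_congr rfl
  intro i _
  rw [sum_congr rfl (g := fun _ => f i) (fun U hU => by rw [(mem_powersetCard.1 hU).2]), sum_const,
    card_powersetCard, nsmul_eq_mul]

/-- alternating binomial sums -/
lemma alt_choose (w b : ℕ) : ∑ i ∈ range (b + 1), (-1 : ℝ) ^ i * ((w + 1).choose i : ℝ) =
    (-1) ^ b * (w.choose b : ℝ) := by
  induction b with
  | zero => simp
  | succ b ih =>
    rw [sum_range_succ, ih, Nat.choose_succ_succ]
    push_cast
    ring

lemma eb_ind (b : ℕ) (hb : Even b) (W : Finset ℕ) : ∑ U ∈ W.powerset, eb b U =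
    if W.card = 0 then 1 else ((W.card - 1).choose b : ℝ) := by
  unfold eb
  rw [sum_card W (fun k => if k ≤ b then (-1 : ℝ) ^ k else 0)]
  rcases Nat.eq_zero_or_pos W.card with h | h
  · rw [if_pos h, h]
    simp
  · rw [if_neg h.ne']
    obtain ⟨w, hw⟩ : ∃ w, W.card = w + 1 := ⟨W.card - 1, by omega⟩
    rw [hw, Nat.add_sub_cancel]
    have h1 : ∑ i ∈ range (w + 1 + 1), (((w + 1).choose i : ℕ) : ℝ) * (if i ≤ b then (-1 : ℝ) ^ i else 0) =
        ∑ i ∈ range (b + 1), (-1 : ℝ) ^ i * ((w + 1).choose i : ℝ) := by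
      have e1 : ∑ i ∈ range (w + 1 + 1), (((w + 1).choose i : ℕ) : ℝ) * (if i ≤ b then (-1 : ℝ) ^ i else 0) =
          ∑ i ∈ range (max (w + 2) (b + 1)), (((w + 1).choose i : ℕ) : ℝ) * (if i ≤ b then (-1 : ℝ) ^ i else 0) := by
        apply sum_subset (range_subset_range.2 (le_max_left _ _))
        intro i _ hi
        rw [mem_range] at hi
        rw [Nat.choose_eq_zero_of_lt (by omega)]
        simp
      have e2 : ∑ i ∈ range (b + 1), (-1 : ℝ) ^ i * ((w + 1).choose i : ℝ) =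
          ∑ i ∈ range (max (w + 2) (b + 1)), (((w + 1).choose i : ℕ) : ℝ) * (if i ≤ b then (-1 : ℝ) ^ i else 0) := by
        rw [← sum_subset (range_subset_range.2 (le_max_right (w + 2) (b + 1)))]
        · apply sum_congr rfl
          intro i hi
          rw [mem_range] at hi
          rw [if_pos (by omega), mul_comm]
        · intro i _ hi
          rw [mem_range] at hi
          rw [if_neg (by omega), mul_zero]
      rw [e1, e2]
    rw [h1, alt_choose, hb.neg_one_pow, one_mul]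

lemma sb_ind (b : ℕ) (W : Finset ℕ) : ∑ U ∈ W.powerset, sb b U = (W.card.choose (b + 1) : ℝ) := by
  unfold sb
  rw [sum_card W (fun k => if k = b + 1 then (1 : ℝ) else 0)]
  rcases lt_or_ge W.card (b + 1) with h | h
  · rw [Nat.choose_eq_zero_of_lt h, Nat.cast_zero]
    apply sum_eq_zero
    intro i hi
    rw [mem_range] at hi
    rw [if_neg (by omega), mul_zero]
  · rw [sum_eq_single (b + 1)]
    · rw [if_pos rfl, mul_one]
    · intro i _ hi
      rw [if_neg hi, mul_zero]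
    · intro hi
      rw [mem_range] at hi
      omega

/-- indicator that `S` misses `R` -/
noncomputable def miss (R S : Finset ℕ) : ℝ := if Disjoint S R then 1 else 0

lemma miss_nonneg (R S : Finset ℕ) : 0 ≤ miss R S := by
  unfold miss
  split_ifs <;> norm_num

lemma miss_le_one (R S : Finset ℕ) : miss R S ≤ 1 := by
  unfold miss
  split_ifs <;> norm_num

lemma miss_union (R I S : Finset ℕ) : miss (R ∪ I) S = miss R S * miss I S := by
  unfold miss
  by_cases h1 : Disjoint S R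
  · by_cases h2 : Disjoint S I
    · rw [if_pos h1, if_pos h2, if_pos (disjoint_union_right.2 ⟨h1, h2⟩)]
      norm_num
    · rw [if_neg h2, if_neg (fun h => h2 (disjoint_union_right.1 h).2)]
      simp
  · rw [if_neg h1, if_neg (fun h => h1 (disjoint_union_right.1 h).1)]
    simp

lemma gen_eb_ge (I S : Finset ℕ) (b : ℕ) (hb : Even b) : miss I S ≤ gen I (eb b) (ind S) := by
  rw [gen_ind, eb_ind b hb]
  unfold miss
  split_ifs with h1 h2 h2
  · exact le_rfl
  · exfalso
    apply h2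
    rw [card_eq_zero, inter_comm]
    exact disjoint_iff_inter_eq_empty.1 h1
  · norm_num
  · exact Nat.cast_nonneg _

lemma gen_sb_nonneg (I S : Finset ℕ) (b : ℕ) : 0 ≤ gen I (sb b) (ind S) := by
  rw [gen_ind, sb_ind]
  exact Nat.cast_nonneg _

lemma gen_eb_le (I S : Finset ℕ) (b : ℕ) (hb : Even b) :
    gen I (eb b) (ind S) ≤ miss I S + gen I (sb b) (ind S) := by
  rw [gen_ind, gen_ind, eb_ind b hb, sb_ind]
  have h0 : (0 : ℝ) ≤ ((I ∩ S).card.choose (b + 1) : ℝ) := Nat.cast_nonneg _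
  split_ifs with h
  · unfold miss
    rw [if_pos]
    · linarith
    · rw [card_eq_zero, inter_comm] at h
      exact disjoint_iff_inter_eq_empty.2 h
  · have h1 := miss_nonneg I S
    have h2 : ((I ∩ S).card - 1).choose b ≤ (I ∩ S).card.choose (b + 1) := by
      obtain ⟨w, hw⟩ : ∃ w, (I ∩ S).card = w + 1 := ⟨(I ∩ S).card - 1, by omega⟩
      rw [hw, Nat.add_sub_cancel, Nat.choose_succ_succ]
      exact Nat.le_add_right _ _
    have h3 : ((((I ∩ S).card - 1).choose b : ℕ) : ℝ) ≤ (((I ∩ S).card.choose (b + 1) : ℕ) : ℝ) := by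
      exact_mod_cast h2
    linarith

lemma prb_miss (R : Finset ℕ) (a : ℕ → ℝ) : ∑ S ∈ R.powerset, prb R a S * miss R S = ∏ p ∈ R, (1 - a p) := by
  rw [sum_eq_single ∅]
  · unfold prb miss
    rw [if_pos (disjoint_empty_left R)]
    simp
  · intro S hS hne
    unfold miss
    rw [if_neg, mul_zero]
    intro h
    apply hne
    rw [mem_powerset] at hS
    have := disjoint_iff_inter_eq_empty.1 h
    rwa [inter_eq_left.2 hS] at this
  · intro h
    exact absurd (empty_mem_powerset R) h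

lemma gen_eb_lower (I : Finset ℕ) (a : ℕ → ℝ) (ha : ∀ p ∈ I, 0 ≤ a p ∧ a p ≤ 1) (b : ℕ) (hb : Even b) :
    ∏ p ∈ I, (1 - a p) ≤ gen I (eb b) a := by
  rw [gen_expect, ← prb_miss]
  apply sum_le_sum
  intro S hS
  exact mul_le_mul_of_nonneg_left (gen_eb_ge I S b hb) (prb_nonneg I a ha S (mem_powerset.1 hS))

lemma gen_eb_upper (I : Finset ℕ) (a : ℕ → ℝ) (ha : ∀ p ∈ I, 0 ≤ a p ∧ a p ≤ 1) (b : ℕ) (hb : Even b) :
    gen I (eb b) a ≤ ∏ p ∈ I, (1 - a p) + gen I (sb b) a := by
  rw [gen_expect I (eb b), gen_expect I (sb b), ← prb_miss, ← sum_add_distrib]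
  apply sum_le_sum
  intro S hS
  rw [← mul_add]
  exact mul_le_mul_of_nonneg_left (gen_eb_le I S b hb) (prb_nonneg I a ha S (mem_powerset.1 hS))

/-- elementary symmetric functions are bounded by powers of the sum -/
lemma esymm_le (I : Finset ℕ) (a : ℕ → ℝ) (ha : ∀ p ∈ I, 0 ≤ a p) (m : ℕ) :
    (m.factorial : ℝ) * ∑ U ∈ I.powersetCard m, ∏ p ∈ U, a p ≤ (∑ p ∈ I, a p) ^ m := by
  induction m with
  | zero => simp
  | succ m ih =>
    have hs : 0 ≤ ∑ p ∈ I, a p := sum_nonneg ha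
    have h1 : ((m : ℝ) + 1) * ∑ U ∈ I.powersetCard (m + 1), ∏ p ∈ U, a p ≤
        (∑ p ∈ I, a p) * ∑ U ∈ I.powersetCard m, ∏ p ∈ U, a p := by
      have e1 : ((m : ℝ) + 1) * ∑ U ∈ I.powersetCard (m + 1), ∏ p ∈ U, a p =
          ∑ U ∈ I.powersetCard (m + 1), ∑ p ∈ U, a p * ∏ q ∈ U.erase p, a q := by
        rw [mul_sum]
        apply sum_congr rfl
        intro U hU
        rw [sum_congr rfl (fun p hp => mul_prod_erase U a hp), sum_const, (mem_powersetCard.1 hU).2,
          nsmul_eq_mul]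
        push_cast
        ring
      rw [e1, sum_mul_sum, ← sum_product', sum_sigma']
      have hinj : Set.InjOn (fun x : (_ : Finset ℕ) × ℕ => (x.2, x.1.erase x.2))
          ((I.powersetCard (m + 1)).sigma (fun U => U) : Finset ((_ : Finset ℕ) × ℕ)) := by
        rintro ⟨U, p⟩ h1 ⟨V, q⟩ h2 h
        rw [mem_coe, mem_sigma] at h1 h2
        simp only [Prod.mk.injEq] at h h1 h2
        obtain ⟨hpq, hUV⟩ := h
        subst hpq
        have : U = V := by
          rw [← insert_erase h1.2, ← insert_erase h2.2, hUV]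
        subst this
        rfl
      rw [← sum_image (s := (I.powersetCard (m + 1)).sigma (fun U => U)) (g := fun x : (_ : Finset ℕ) × ℕ => (x.2, x.1.erase x.2))
        (f := fun y : ℕ × Finset ℕ => a y.1 * ∏ q ∈ y.2, a q) hinj]
      apply sum_le_sum_of_subset_of_nonneg
      · rintro ⟨p, W⟩ h
        rw [mem_image] at h
        obtain ⟨⟨U, q⟩, hU, hq⟩ := h
        rw [mem_sigma] at hU
        simp only [Prod.mk.injEq] at hU hq
        obtain ⟨rfl, rfl⟩ := hq
        rw [mem_product, mem_powersetCard]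
        have h3 := mem_powersetCard.1 hU.1
        refine ⟨h3.1 hU.2, (erase_subset _ _).trans h3.1, ?_⟩
        rw [card_erase_of_mem hU.2, h3.2]
        rfl
      · rintro ⟨p, W⟩ h _
        rw [mem_product] at h
        exact mul_nonneg (ha p h.1) (prod_nonneg fun q hq => ha q ((mem_powersetCard.1 h.2).1 hq))
    have h2 : ((m + 1).factorial : ℝ) = (m.factorial : ℝ) * ((m : ℝ) + 1) := by
      rw [Nat.factorial_succ]
      push_cast
      ring
    rw [h2, mul_assoc, pow_succ]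
    calc (m.factorial : ℝ) * (((m : ℝ) + 1) * ∑ U ∈ I.powersetCard (m + 1), ∏ p ∈ U, a p) ≤
        (m.factorial : ℝ) * ((∑ p ∈ I, a p) * ∑ U ∈ I.powersetCard m, ∏ p ∈ U, a p) :=
          mul_le_mul_of_nonneg_left h1 (Nat.cast_nonneg _)
      _ = ((m.factorial : ℝ) * ∑ U ∈ I.powersetCard m, ∏ p ∈ U, a p) * ∑ p ∈ I, a p := by ring
      _ ≤ _ := mul_le_mul_of_nonneg_right ih hs

lemma gen_sb_le (I : Finset ℕ) (a : ℕ → ℝ) (ha : ∀ p ∈ I, 0 ≤ a p) (b : ℕ) :
    gen I (sb b) a ≤ (∑ p ∈ I, a p) ^ (b + 1) / ((b + 1).factorial : ℝ) := by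
  have h1 : gen I (sb b) a = ∑ U ∈ I.powersetCard (b + 1), ∏ p ∈ U, a p := by
    unfold gen sb
    rw [powersetCard_eq_filter, sum_filter]
    apply sum_congr rfl
    intro U _
    split_ifs <;> simp
  rw [h1, le_div_iff₀ (by exact_mod_cast Nat.factorial_pos _), mul_comm]
  exact esymm_le I a ha (b + 1)

lemma gen_miss (R S : Finset ℕ) (l : Finset ℕ → ℝ) (h1 : l ∅ = 1) (h2 : 0 ≤ gen R l (ind S)) :
    miss R S ≤ gen R l (ind S) := by
  unfold miss
  split_ifs with h
  · rw [gen_ind]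
    have : R ∩ S = ∅ := by rw [inter_comm]; exact disjoint_iff_inter_eq_empty.1 h
    rw [this]
    simp [h1]
  · exact h2

/-- upper sieve weights -/
def Up (R : Finset ℕ) (a : ℕ → ℝ) (D F : ℝ) : Prop := ∃ l : Finset ℕ → ℝ, l ∅ = 1 ∧ (∀ U, |l U| ≤ 1) ∧
  (∀ U, U ⊆ R → l U ≠ 0 → ∏ p ∈ U, (p : ℝ) ≤ D) ∧ (∀ S, 0 ≤ gen R l (ind S)) ∧
  gen R l a ≤ F * ∏ p ∈ R, (1 - a p)

lemma Up_empty (a : ℕ → ℝ) : Up ∅ a 1 1 := by
  refine ⟨fun _ => 1, rfl, fun _ => by simp, ?_, ?_, ?_⟩
  · intro U hU _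
    rw [subset_empty.1 hU]
    simp
  · intro S
    unfold gen
    simp
  · unfold gen
    simp

lemma Up_mono {R : Finset ℕ} {a : ℕ → ℝ} {D D' F F' : ℝ} (ha : ∀ p ∈ R, a p ≤ 1) (hD : D ≤ D') (hF : F ≤ F')
    (h : Up R a D F) : Up R a D' F' := by
  obtain ⟨l, h1, h2, h3, h4, h5⟩ := h
  refine ⟨l, h1, h2, fun U hU hl => (h3 U hU hl).trans hD, h4, h5.trans ?_⟩
  exact mul_le_mul_of_nonneg_right hF (prod_nonneg fun p hp => by linarith [ha p hp])

lemma eb_abs (b : ℕ) (U : Finset ℕ) : |eb b U| ≤ 1 := by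
  unfold eb
  split_ifs <;> simp

lemma sb_abs (b : ℕ) (U : Finset ℕ) : |sb b U| ≤ 1 := by
  unfold sb
  split_ifs <;> simp

lemma eb_empty (b : ℕ) : eb b ∅ = 1 := by
  unfold eb
  simp

lemma prod_le_pow (I : Finset ℕ) (Y : ℝ) (hY : 1 ≤ Y) (hI : ∀ p ∈ I, (p : ℝ) ≤ Y) (W : Finset ℕ) (hW : W ⊆ I)
    (b : ℕ) (hb : W.card ≤ b) : ∏ p ∈ W, (p : ℝ) ≤ Y ^ b := by
  calc ∏ p ∈ W, (p : ℝ) ≤ ∏ _p ∈ W, Y := Finset.prod_le_prod (fun _ _ => Nat.cast_nonneg _) (fun p hp => hI p (hW hp))
    _ = Y ^ W.card := by rw [prod_const]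
    _ ≤ Y ^ b := pow_le_pow_right₀ hY hb

lemma prod_split (R I : Finset ℕ) (h : Disjoint R I) (U : Finset ℕ) (hU : U ⊆ R ∪ I) :
    ∏ p ∈ U, (p : ℝ) = (∏ p ∈ U ∩ R, (p : ℝ)) * ∏ p ∈ U ∩ I, (p : ℝ) := by
  rw [← prod_union (disjoint_of_subset_left inter_subset_right (disjoint_of_subset_right inter_subset_right h)),
    ← inter_union_distrib_left, inter_eq_left.2 hU]

lemma Up_step (R I : Finset ℕ) (h : Disjoint R I) (a : ℕ → ℝ) (ha : ∀ p ∈ R ∪ I, 0 ≤ a p ∧ a p ≤ 1)
    (D F Y x : ℝ) (hY : 1 ≤ Y) (hF : 0 ≤ F) (hI : ∀ p ∈ I, (p : ℝ) ≤ Y) (b : ℕ) (hb : Even b)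
    (hx : (∑ p ∈ I, a p) ^ (b + 1) / ((b + 1).factorial : ℝ) ≤ x * ∏ p ∈ I, (1 - a p))
    (hU : Up R a D F) : Up (R ∪ I) a (Y ^ b * D) (F * (1 + x)) := by
  obtain ⟨l, h1, h2, h3, h4, h5⟩ := hU
  have haR : ∀ p ∈ R, 0 ≤ a p ∧ a p ≤ 1 := fun p hp => ha p (mem_union_left _ hp)
  have haI : ∀ p ∈ I, 0 ≤ a p ∧ a p ≤ 1 := fun p hp => ha p (mem_union_right _ hp)
  have hPR : 0 ≤ ∏ p ∈ R, (1 - a p) := prod_nonneg fun p hp => by linarith [(haR p hp).2]
  have hPI : 0 ≤ ∏ p ∈ I, (1 - a p) := prod_nonneg fun p hp => by linarith [(haI p hp).2]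
  refine ⟨tens R I l (eb b), ?_, ?_, ?_, ?_, ?_⟩
  · unfold tens
    rw [empty_inter, empty_inter, h1, eb_empty, one_mul]
  · intro U
    unfold tens
    rw [abs_mul]
    have e1 := h2 (U ∩ R)
    have e2 := eb_abs b (U ∩ I)
    have := mul_le_mul e1 e2 (abs_nonneg _) (by norm_num)
    linarith
  · intro U hU hl
    unfold tens at hl
    have hl1 := left_ne_zero_of_mul hl
    have hl2 := right_ne_zero_of_mul hl
    rw [prod_split R I h U hU, mul_comm]
    apply mul_le_mul
    · apply prod_le_pow I Y hY hI _ inter_subset_right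
      unfold eb at hl2
      by_contra hc
      rw [if_neg hc] at hl2
      exact hl2 rfl
    · exact h3 _ inter_subset_right hl1
    · exact prod_nonneg fun _ _ => Nat.cast_nonneg _
    · positivity
  · intro S
    rw [gen_tens R I h]
    exact mul_nonneg (h4 S) ((miss_nonneg I S).trans (gen_eb_ge I S b hb))
  · rw [gen_tens R I h, prod_union h]
    have e1 := gen_eb_upper I a haI b hb
    have e2 := gen_sb_le I a (fun p hp => (haI p hp).1) b
    have e3 := gen_eb_lower I a haI b hb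
    have e4 : gen I (eb b) a ≤ (1 + x) * ∏ p ∈ I, (1 - a p) := by linarith
    calc gen R l a * gen I (eb b) a ≤ (F * ∏ p ∈ R, (1 - a p)) * gen I (eb b) a :=
          mul_le_mul_of_nonneg_right h5 (hPI.trans e3)
      _ ≤ (F * ∏ p ∈ R, (1 - a p)) * ((1 + x) * ∏ p ∈ I, (1 - a p)) :=
          mul_le_mul_of_nonneg_left e4 (mul_nonneg hF hPR)
      _ = _ := by ring

/-- lower sieve weights, as a difference -/
def Lo (R : Finset ℕ) (a : ℕ → ℝ) (D Y e B : ℝ) : Prop := ∃ l1 l2 : Finset ℕ → ℝ, l1 ∅ = 1 ∧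
  (∀ U, |l1 U| ≤ 1 ∧ |l2 U| ≤ B) ∧ (∀ U, U ⊆ R → l1 U ≠ 0 → ∏ p ∈ U, (p : ℝ) ≤ D) ∧
  (∀ U, U ⊆ R → l2 U ≠ 0 → ∏ p ∈ U, (p : ℝ) ≤ Y * D) ∧
  (∀ S, 0 ≤ gen R l1 (ind S) ∧ 0 ≤ gen R l2 (ind S) ∧ gen R l1 (ind S) - gen R l2 (ind S) ≤ miss R S) ∧
  ∏ p ∈ R, (1 - a p) ≤ gen R l1 a ∧ 0 ≤ gen R l2 a ∧ gen R l2 a ≤ e * gen R l1 a

lemma Lo_empty (a : ℕ → ℝ) : Lo ∅ a 1 1 0 0 := by
  refine ⟨fun _ => 1, fun _ => 0, rfl, fun _ => by simp, ?_, ?_, ?_, ?_, ?_, ?_⟩
  · intro U hU _
    rw [subset_empty.1 hU]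
    simp
  · intro U _ h
    exact absurd rfl h
  · intro S
    unfold gen miss
    simp
  · unfold gen
    simp
  · unfold gen
    simp
  · unfold gen
    simp

lemma Lo_step (R I : Finset ℕ) (h : Disjoint R I) (a : ℕ → ℝ) (ha : ∀ p ∈ R ∪ I, 0 ≤ a p ∧ a p ≤ 1)
    (D Y e B Y' x : ℝ) (hD : 0 ≤ D) (hY : Y ≤ Y') (hY' : 1 ≤ Y') (hI : ∀ p ∈ I, (p : ℝ) ≤ Y')
    (hx0 : 0 ≤ x) (b : ℕ) (hb : Even b)
    (hx : (∑ p ∈ I, a p) ^ (b + 1) / ((b + 1).factorial : ℝ) ≤ x * ∏ p ∈ I, (1 - a p))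
    (hL : Lo R a D Y e B) : Lo (R ∪ I) a (Y' ^ b * D) Y' (e + x) (B + 1) := by
  obtain ⟨l1, l2, h1, h2, h3, h4, h5, h6, h7, h8⟩ := hL
  have haR : ∀ p ∈ R, 0 ≤ a p ∧ a p ≤ 1 := fun p hp => ha p (mem_union_left _ hp)
  have haI : ∀ p ∈ I, 0 ≤ a p ∧ a p ≤ 1 := fun p hp => ha p (mem_union_right _ hp)
  have hPR : 0 ≤ ∏ p ∈ R, (1 - a p) := prod_nonneg fun p hp => by linarith [(haR p hp).2]
  have hPI : 0 ≤ ∏ p ∈ I, (1 - a p) := prod_nonneg fun p hp => by linarith [(haI p hp).2]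
  have hY0 : 0 ≤ Y' := by linarith
  have hgadd : ∀ c : ℕ → ℝ, gen (R ∪ I) (fun U => tens R I l2 (eb b) U + tens R I l1 (sb b) U) c =
      gen R l2 c * gen I (eb b) c + gen R l1 c * gen I (sb b) c := by
    intro c
    rw [← gen_tens R I h, ← gen_tens R I h]
    unfold gen
    rw [← sum_add_distrib]
    apply sum_congr rfl
    intro U _
    ring
  have hgl1 : 0 ≤ gen R l1 a := hPR.trans h6
  have e3 := gen_eb_lower I a haI b hb
  have hge : 0 ≤ gen I (eb b) a := hPI.trans e3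
  refine ⟨tens R I l1 (eb b), fun U => tens R I l2 (eb b) U + tens R I l1 (sb b) U, ?_, ?_, ?_, ?_, ?_, ?_, ?_, ?_⟩
  · unfold tens
    rw [empty_inter, empty_inter, h1, eb_empty, one_mul]
  · intro U
    unfold tens
    constructor
    · rw [abs_mul]
      have e1 := (h2 (U ∩ R)).1
      have e2 := eb_abs b (U ∩ I)
      have := mul_le_mul e1 e2 (abs_nonneg _) (by norm_num)
      linarith
    · refine (abs_add_le _ _).trans ?_
      rw [abs_mul, abs_mul]
      have e1 := (h2 (U ∩ R)).1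
      have e1' := (h2 (U ∩ R)).2
      have e2 := eb_abs b (U ∩ I)
      have e4 := sb_abs b (U ∩ I)
      have e5 := mul_le_mul e1 e4 (abs_nonneg _) (by norm_num)
      have e6 := mul_le_mul e1' e2 (abs_nonneg _) ((abs_nonneg _).trans e1')
      linarith
  · intro U hU hl
    unfold tens at hl
    have hl1 := left_ne_zero_of_mul hl
    have hl2 := right_ne_zero_of_mul hl
    rw [prod_split R I h U hU, mul_comm]
    apply mul_le_mul
    · apply prod_le_pow I Y' hY' hI _ inter_subset_right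
      unfold eb at hl2
      by_contra hc
      rw [if_neg hc] at hl2
      exact hl2 rfl
    · exact h3 _ inter_subset_right hl1
    · exact prod_nonneg fun _ _ => Nat.cast_nonneg _
    · positivity
  · intro U hU hl
    rw [prod_split R I h U hU, mul_comm]
    by_cases hc : tens R I l2 (eb b) U = 0
    · have hl' : tens R I l1 (sb b) U ≠ 0 := by
        intro h'
        apply hl
        show tens R I l2 (eb b) U + tens R I l1 (sb b) U = 0
        rw [hc, h', add_zero]
      unfold tens at hl'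
      have hl1 := left_ne_zero_of_mul hl'
      have hl2 := right_ne_zero_of_mul hl'
      have e1 : Y' * (Y' ^ b * D) = Y' ^ (b + 1) * D := by ring
      rw [e1]
      apply mul_le_mul
      · apply prod_le_pow I Y' hY' hI _ inter_subset_right
        unfold sb at hl2
        by_contra hc'
        rw [if_neg (by omega)] at hl2
        exact hl2 rfl
      · exact h3 _ inter_subset_right hl1
      · exact prod_nonneg fun _ _ => Nat.cast_nonneg _
      · positivity
    · unfold tens at hc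
      have hl1 := left_ne_zero_of_mul hc
      have hl2 := right_ne_zero_of_mul hc
      have e1 : Y' * (Y' ^ b * D) = Y' ^ b * (Y' * D) := by ring
      rw [e1]
      apply mul_le_mul
      · apply prod_le_pow I Y' hY' hI _ inter_subset_right
        unfold eb at hl2
        by_contra hc'
        rw [if_neg hc'] at hl2
        exact hl2 rfl
      · exact (h4 _ inter_subset_right hl1).trans (mul_le_mul_of_nonneg_right hY hD)
      · exact prod_nonneg fun _ _ => Nat.cast_nonneg _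
      · positivity
  · intro S
    rw [gen_tens R I h, hgadd]
    obtain ⟨q1, q2, q3⟩ := h5 S
    have q4 := gen_eb_ge I S b hb
    have q5 := gen_eb_le I S b hb
    have q6 := gen_sb_nonneg I S b
    have q7 := miss_nonneg I S
    have q8 : 0 ≤ gen I (eb b) (ind S) := q7.trans q4
    have q9 := gen_miss R S l1 h1 q1
    have q10 := miss_nonneg R S
    refine ⟨mul_nonneg q1 q8, add_nonneg (mul_nonneg q2 q8) (mul_nonneg q1 q6), ?_⟩
    rw [miss_union]
    have r1 : (gen R l1 (ind S) - gen R l2 (ind S)) * gen I (eb b) (ind S) ≤ miss R S * gen I (eb b) (ind S) :=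
      mul_le_mul_of_nonneg_right q3 q8
    have r2 : miss R S * gen I (sb b) (ind S) ≤ gen R l1 (ind S) * gen I (sb b) (ind S) :=
      mul_le_mul_of_nonneg_right q9 q6
    have r3 : miss R S * gen I (eb b) (ind S) ≤ miss R S * (miss I S + gen I (sb b) (ind S)) :=
      mul_le_mul_of_nonneg_left q5 q10
    linarith
  · rw [gen_tens R I h, prod_union h]
    exact mul_le_mul h6 e3 hPI hgl1
  · rw [hgadd]
    have q6 : 0 ≤ gen I (sb b) a := by
      unfold gen sb
      apply sum_nonneg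
      intro U hU
      apply mul_nonneg
      · split_ifs <;> norm_num
      · exact prod_nonneg fun p hp => (haI p (mem_powerset.1 hU hp)).1
    exact add_nonneg (mul_nonneg h7 hge) (mul_nonneg hgl1 q6)
  · rw [hgadd, gen_tens R I h]
    have e2 := gen_sb_le I a (fun p hp => (haI p hp).1) b
    have e4 : gen I (sb b) a ≤ x * gen I (eb b) a :=
      (e2.trans hx).trans (mul_le_mul_of_nonneg_left e3 hx0)
    have r1 : gen R l2 a * gen I (eb b) a ≤ e * gen R l1 a * gen I (eb b) a :=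
      mul_le_mul_of_nonneg_right h8 hge
    have r2 : gen R l1 a * gen I (sb b) a ≤ gen R l1 a * (x * gen I (eb b) a) :=
      mul_le_mul_of_nonneg_left e4 hgl1
    linarith

end Pool.Agent.H16.P3
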