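import Pool.Agent.H16.P3.Chain

/-!
# The weighted sieve: composition of a lower sieve with upper sieves for the large primes
-/

set_option autoImplicit false

namespace Pool.Agent.H16.P3

open Finset

lemma gen_ext (Q R : Finset ℕ) (h : R ⊆ Q) (l : Finset ℕ → ℝ) (c : ℕ → ℝ) :
    gen Q (fun U => if U ⊆ R then l U else 0) c = gen R l c := by
  unfold gen
  have h1 : R.powerset = Q.powerset.filter (fun U => U ⊆ R) := by
    ext U
    rw [mem_powerset, mem_filter, mem_powerset]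
    exact ⟨fun h' => ⟨h'.trans h, h'⟩, fun h' => h'.2⟩
  rw [h1, sum_filter]
  apply sum_congr rfl
  intro U _
  dsimp only
  by_cases h' : U ⊆ R
  · rw [if_pos h', if_pos h']
  · rw [if_neg h', if_neg h', zero_mul]

lemma gen_add_one (Q R : Finset ℕ) (h : R ⊆ Q) (p : ℕ) (hp : p ∈ Q) (hpR : p ∉ R) (l : Finset ℕ → ℝ) (c : ℕ → ℝ) :
    gen Q (fun U => if p ∈ U ∧ U.erase p ⊆ R then l (U.erase p) else 0) c = c p * gen R l c := by
  unfold gen
  have h1 : ∑ U ∈ Q.powerset, (if p ∈ U ∧ U.erase p ⊆ R then l (U.erase p) else 0) * ∏ q ∈ U, c q =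
      ∑ U ∈ Q.powerset.filter (fun U => p ∈ U ∧ U.erase p ⊆ R), l (U.erase p) * (c p * ∏ q ∈ U.erase p, c q) := by
    rw [sum_filter]
    apply sum_congr rfl
    intro U _
    split_ifs with h'
    · rw [mul_prod_erase U c h'.1]
    · rw [zero_mul]
  rw [h1, mul_sum]
  refine sum_bij' (fun U _ => U.erase p) (fun V _ => insert p V) ?_ ?_ ?_ ?_ ?_
  · intro U hU
    rw [mem_filter] at hU
    exact mem_powerset.2 hU.2.2
  · intro V hV
    rw [mem_powerset] at hV
    have hpV : p ∉ V := fun h' => hpR (hV h')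
    rw [mem_filter, mem_powerset, erase_insert hpV]
    exact ⟨insert_subset hp (hV.trans h), mem_insert_self _ _, hV⟩
  · intro U hU
    rw [mem_filter] at hU
    exact insert_erase hU.2.1
  · intro V hV
    rw [mem_powerset] at hV
    exact erase_insert (fun h' => hpR (hV h'))
  · intro U _
    ring

lemma gen_add (Q : Finset ℕ) (l l' : Finset ℕ → ℝ) (c : ℕ → ℝ) :
    gen Q (fun U => l U + l' U) c = gen Q l c + gen Q l' c := by
  unfold gen
  rw [← sum_add_distrib]
  exact sum_congr rfl fun U _ => by ring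

lemma gen_sum (Q : Finset ℕ) (s : Finset ℕ) (k : ℕ → ℝ) (l : ℕ → Finset ℕ → ℝ) (c : ℕ → ℝ) :
    gen Q (fun U => ∑ p ∈ s, k p * l p U) c = ∑ p ∈ s, k p * gen Q (l p) c := by
  unfold gen
  simp only [sum_mul, mul_sum]
  rw [sum_comm]
  exact sum_congr rfl fun p _ => sum_congr rfl fun U _ => by ring

lemma miss_mono (R R' S : Finset ℕ) (h : R' ⊆ R) : miss R S ≤ miss R' S := by
  unfold miss
  split_ifs with h1 h2 h2
  · exact le_rfl
  · exact absurd (disjoint_of_subset_right h h1) h2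
  · norm_num
  · exact le_rfl

lemma compose (Q R : Finset ℕ) (hR : R ⊆ Q) (a : ℕ → ℝ) (ha : ∀ p ∈ Q, 0 ≤ a p ∧ a p ≤ 1)
    (D Y e B Dt : ℝ) (hL : Lo R a D Y e B) (c : ℕ → ℝ) (hc : ∀ p ∈ Q \ R, 0 ≤ c p ∧ c p ≤ 1)
    (Rp : ℕ → Finset ℕ) (Dp Fp : ℕ → ℝ)
    (hUp : ∀ p ∈ Q \ R, Rp p ⊆ R ∧ Up (Rp p) a (Dp p) (Fp p) ∧ p * Dp p ≤ Dt)
    (hD1 : D ≤ Dt) (hD2 : Y * D ≤ Dt) :
    ∃ l1 l2 : Finset ℕ → ℝ, (∀ U, |l1 U| ≤ 1 ∧ |l2 U| ≤ B + 1) ∧
      (∀ U, U ⊆ Q → Dt < ∏ p ∈ U, (p : ℝ) → l1 U = 0 ∧ l2 U = 0) ∧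
      (∀ S, 0 ≤ gen Q l1 (ind S) ∧ 0 ≤ gen Q l2 (ind S) ∧
        gen Q l1 (ind S) - gen Q l2 (ind S) ≤ miss R S * (1 - ∑ p ∈ (Q \ R) ∩ S, c p)) ∧
      ∏ p ∈ R, (1 - a p) ≤ gen Q l1 a ∧ 0 ≤ gen Q l2 a ∧
      gen Q l2 a ≤ e * gen Q l1 a + ∑ p ∈ Q \ R, c p * a p * (Fp p * ∏ q ∈ Rp p, (1 - a q)) := by
  classical
  obtain ⟨m1, m2, h1, h2, h3, h4, h5, h6, h7, h8⟩ := hL
  have hch : ∀ p : ℕ, ∃ l : Finset ℕ → ℝ, p ∈ Q \ R → l ∅ = 1 ∧ (∀ U, |l U| ≤ 1) ∧
      (∀ U, U ⊆ Rp p → l U ≠ 0 → ∏ q ∈ U, (q : ℝ) ≤ Dp p) ∧ (∀ S, 0 ≤ gen (Rp p) l (ind S)) ∧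
      gen (Rp p) l a ≤ Fp p * ∏ q ∈ Rp p, (1 - a q) := by
    intro p
    by_cases hp : p ∈ Q \ R
    · obtain ⟨l, hl⟩ := (hUp p hp).2.1
      exact ⟨l, fun _ => hl⟩
    · exact ⟨fun _ => 0, fun h => absurd h hp⟩
  choose lp hlp using hch
  set t : ℕ → Finset ℕ → ℝ := fun p U => if p ∈ U ∧ U.erase p ⊆ Rp p then lp p (U.erase p) else 0 with ht
  have hgt : ∀ p ∈ Q \ R, ∀ c' : ℕ → ℝ, gen Q (t p) c' = c' p * gen (Rp p) (lp p) c' := by
    intro p hp c'
    obtain ⟨hp1, hp2⟩ := mem_sdiff.1 hp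
    have hs := (hUp p hp).1
    exact gen_add_one Q (Rp p) (hs.trans hR) p hp1 (fun h => hp2 (hs h)) (lp p) c'
  have hg2 : ∀ c' : ℕ → ℝ, gen Q (fun U => (if U ⊆ R then m2 U else 0) + ∑ p ∈ Q \ R, c p * t p U) c' =
      gen R m2 c' + ∑ p ∈ Q \ R, c p * (c' p * gen (Rp p) (lp p) c') := by
    intro c'
    rw [gen_add, gen_ext Q R hR, gen_sum]
    congr 1
    apply sum_congr rfl
    intro p hp
    rw [hgt p hp]
  refine ⟨fun U => if U ⊆ R then m1 U else 0,
    fun U => (if U ⊆ R then m2 U else 0) + ∑ p ∈ Q \ R, c p * t p U, ?_, ?_, ?_, ?_, ?_, ?_⟩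
  · intro U
    constructor
    · dsimp only
      split_ifs
      · exact (h2 U).1
      · simp
    · refine (abs_add_le _ _).trans ?_
      apply add_le_add
      · have := (h2 U).2
        split_ifs
        · exact this
        · rw [abs_zero]
          exact (abs_nonneg _).trans this
      · have e1 : ∀ p ∈ Q \ R, |c p * t p U| ≤ if p ∈ U ∧ U.erase p ⊆ Rp p then 1 else 0 := by
          intro p hp
          rw [abs_mul, abs_of_nonneg (hc p hp).1, ht]
          dsimp only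
          split_ifs with h'
          · have := (hlp p hp).2.1 (U.erase p)
            have h9 := (hc p hp)
            calc c p * |lp p (U.erase p)| ≤ 1 * 1 := mul_le_mul h9.2 this (abs_nonneg _) (by norm_num)
              _ = 1 := by norm_num
          · simp
        refine (abs_sum_le_sum_abs _ _).trans ((sum_le_sum e1).trans ?_)
        rw [← sum_filter, sum_const, nsmul_eq_mul, mul_one]
        have : ((Q \ R).filter (fun p => p ∈ U ∧ U.erase p ⊆ Rp p)).card ≤ 1 := by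
          rw [card_le_one]
          intro p hp q hq
          rw [mem_filter] at hp hq
          by_contra hne
          have h10 : q ∈ U.erase p := mem_erase.2 ⟨fun h => hne h.symm, hq.2.1⟩
          have h11 := (hUp p hp.1).1 (hp.2.2 h10)
          exact (mem_sdiff.1 hq.1).2 h11
        exact_mod_cast this
  · intro U hU hlt
    constructor
    · dsimp only
      split_ifs with h'
      · by_contra hne
        have := h3 U h' hne
        linarith
      · rfl
    · dsimp only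
      have e1 : (if U ⊆ R then m2 U else 0) = 0 := by
        split_ifs with h'
        · by_contra hne
          have := h4 U h' hne
          linarith
        · rfl
      rw [e1, zero_add]
      apply sum_eq_zero
      intro p hp
      rw [ht]
      dsimp only
      split_ifs with h'
      · have : lp p (U.erase p) = 0 := by
          by_contra hne
          have h10 := (hlp p hp).2.2.1 _ h'.2 hne
          have h11 := (hUp p hp).2.2
          rw [← mul_prod_erase U (fun q : ℕ => (q : ℝ)) h'.1] at hlt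
          have h12 : (p : ℝ) * ∏ q ∈ U.erase p, (q : ℝ) ≤ p * Dp p :=
            mul_le_mul_of_nonneg_left h10 (Nat.cast_nonneg p)
          linarith
        rw [this, mul_zero]
      · rw [mul_zero]
  · intro S
    rw [gen_ext Q R hR, hg2]
    obtain ⟨q1, q2, q3⟩ := h5 S
    have q4 : ∀ p ∈ Q \ R, c p * (ind S p * miss R S) ≤ c p * (ind S p * gen (Rp p) (lp p) (ind S)) := by
      intro p hp
      have r1 := gen_miss (Rp p) S (lp p) (hlp p hp).1 ((hlp p hp).2.2.2.1 S)
      have r2 := miss_mono R (Rp p) S (hUp p hp).1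
      apply mul_le_mul_of_nonneg_left _ (hc p hp).1
      apply mul_le_mul_of_nonneg_left (r2.trans r1)
      unfold ind
      split_ifs <;> norm_num
    have q5 := sum_le_sum q4
    have q6 : ∑ p ∈ Q \ R, c p * (ind S p * miss R S) = miss R S * ∑ p ∈ (Q \ R) ∩ S, c p := by
      rw [← filter_mem_eq_inter, sum_filter, mul_sum]
      apply sum_congr rfl
      intro p _
      unfold ind
      split_ifs <;> ring
    refine ⟨q1, ?_, ?_⟩
    · apply add_nonneg q2
      apply sum_nonneg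
      intro p hp
      refine mul_nonneg (hc p hp).1 (mul_nonneg ?_ ((hlp p hp).2.2.2.1 S))
      unfold ind
      split_ifs <;> norm_num
    · rw [mul_sub, mul_one, ← q6]
      linarith
  · rw [gen_ext Q R hR]
    exact h6
  · rw [hg2]
    apply add_nonneg h7
    apply sum_nonneg
    intro p hp
    have hpQ := (mem_sdiff.1 hp).1
    have hs := (hUp p hp).1
    refine mul_nonneg (hc p hp).1 (mul_nonneg (ha p hpQ).1 ?_)
    rw [gen_expect]
    apply sum_nonneg
    intro S hS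
    exact mul_nonneg (prb_nonneg _ a (fun q hq => ha q (hR (hs hq))) S (mem_powerset.1 hS)) ((hlp p hp).2.2.2.1 S)
  · rw [gen_ext Q R hR, hg2]
    apply add_le_add h8
    apply sum_le_sum
    intro p hp
    have hpQ := (mem_sdiff.1 hp).1
    rw [mul_assoc]
    apply mul_le_mul_of_nonneg_left _ (hc p hp).1
    exact mul_le_mul_of_nonneg_left (hlp p hp).2.2.2.2 (ha p hpQ).1

end Pool.Agent.H16.P3
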