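import Pool.Agent.H16.P3.Final

/-!
# Simultaneous approximation with `h ^ 2 + 1 = P_3`
-/

set_option autoImplicit false

namespace Pool.Agent.H16.P3

open Finset

open Classical in
/-- a general pigeonhole consequence -/
theorem many_h (κ ε : ℝ) (N : ℕ) (hN : 1 ≤ N) (P : ℤ → Prop)
    (H : ∀ A ⊆ Ioc 0 (0 + N), (N : ℝ) ^ (1 - κ) ≤ A.card → (A.card : ℝ) ^ 2 * (N : ℝ) ^ (-ε) ≤
        ((A ×ˢ A).filter (fun x : ℕ × ℕ => x.1 < x.2 ∧ P ((x.2 : ℤ) - x.1))).card)
    (k m : ℕ) (hm : 0 < m) (hmN : ((m : ℝ) ^ k) ≤ (N : ℝ) ^ κ) (α : Fin k → ℝ) :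
    (N : ℝ) ^ (1 - κ - ε) ≤
      ((Icc 1 N).filter (fun h : ℕ => (∀ i, |(h : ℝ) * α i - round ((h : ℝ) * α i)| ≤ 1 / (m : ℝ)) ∧ P h)).card := by
  have hNR : (1 : ℝ) ≤ N := by exact_mod_cast hN
  have hN0 : (0 : ℝ) < N := by linarith
  have hm0 : (0 : ℝ) < m := by exact_mod_cast hm
  haveI : NeZero m := ⟨hm.ne'⟩
  -- the colouring
  set F : ℕ → (Fin k → Fin m) := fun a i => ⟨⌊m * Int.fract (a * α i)⌋₊, by
    have h1 := Int.fract_lt_one ((a : ℝ) * α i)
    have h0 := Int.fract_nonneg ((a : ℝ) * α i)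
    rw [Nat.floor_lt (by positivity)]
    nlinarith⟩ with hF
  obtain ⟨c, _, hc⟩ := exists_le_card_fiber_of_nsmul_le_card_of_maps_to (s := Ioc 0 (0 + N))
    (t := (univ : Finset (Fin k → Fin m))) (f := F) (b := (N : ℝ) ^ (1 - κ)) (fun _ _ => mem_univ _)
    univ_nonempty (by
      rw [card_univ, Fintype.card_fun, Fintype.card_fin, Fintype.card_fin, nsmul_eq_mul, Nat.card_Ioc]
      push_cast
      calc (m : ℝ) ^ k * (N : ℝ) ^ (1 - κ) ≤ (N : ℝ) ^ κ * (N : ℝ) ^ (1 - κ) :=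
            mul_le_mul_of_nonneg_right hmN (by positivity)
        _ = N := by
            rw [← Real.rpow_add hN0, add_sub_cancel, Real.rpow_one]
        _ ≤ _ := by norm_num)
  set A := (Ioc 0 (0 + N)).filter (fun x => F x = c) with hA
  have h1 := H A (filter_subset _ _) hc
  set W := (Icc 1 N).filter (fun h : ℕ => (∀ i, |(h : ℝ) * α i - round ((h : ℝ) * α i)| ≤ 1 / (m : ℝ)) ∧ P h) with hW
  have h2 : ((A ×ˢ A).filter (fun x : ℕ × ℕ => x.1 < x.2 ∧ P ((x.2 : ℤ) - x.1))).card ≤ (A ×ˢ W).card := by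
    apply card_le_card_of_injOn (fun x : ℕ × ℕ => (x.1, x.2 - x.1))
    · rintro ⟨a, b⟩ hx
      rw [mem_coe, mem_filter, mem_product] at hx
      obtain ⟨⟨ha, hb⟩, hab, hP⟩ := hx
      simp only at ha hb hab hP
      rw [mem_coe, mem_product]
      refine ⟨ha, ?_⟩
      simp only
      obtain ⟨ha1, ha2⟩ := mem_filter.1 ha
      obtain ⟨hb1, hb2⟩ := mem_filter.1 hb
      have hb3 := mem_Ioc.1 hb1
      have e : ((b - a : ℕ) : ℤ) = (b : ℤ) - a := by omega
      have e' : ((b - a : ℕ) : ℝ) = (b : ℝ) - a := by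
        rw [Nat.cast_sub hab.le]
      rw [hW, mem_filter, mem_Icc]
      refine ⟨by omega, ?_, ?_⟩
      · intro i
        rw [e']
        have h3 : (F a i : ℕ) = (F b i : ℕ) := by rw [ha2, hb2]
        simp only [hF] at h3
        set x := Int.fract ((a : ℝ) * α i) with hx
        set y := Int.fract ((b : ℝ) * α i) with hy
        have hx0 := Int.fract_nonneg ((a : ℝ) * α i)
        have hy0 := Int.fract_nonneg ((b : ℝ) * α i)
        rw [← hx] at hx0
        rw [← hy] at hy0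
        have l1 := Nat.floor_le (mul_nonneg hm0.le hx0)
        have l2 := Nat.lt_floor_add_one ((m : ℝ) * x)
        have l3 := Nat.floor_le (mul_nonneg hm0.le hy0)
        have l4 := Nat.lt_floor_add_one ((m : ℝ) * y)
        have h4 : (⌊(m : ℝ) * x⌋₊ : ℝ) = (⌊(m : ℝ) * y⌋₊ : ℝ) := by exact_mod_cast h3
        have h5 : |y - x| ≤ 1 / m := by
          rw [abs_le, div_eq_mul_inv, one_mul]
          have hmi : (m : ℝ) * (m : ℝ)⁻¹ = 1 := mul_inv_cancel₀ hm0.ne'
          constructor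
          · by_contra hc'
            push Not at hc'
            have : (m : ℝ) * (y - x) < m * (-(m : ℝ)⁻¹) := mul_lt_mul_of_pos_left hc' hm0
            nlinarith
          · by_contra hc'
            push Not at hc'
            have : m * ((m : ℝ)⁻¹) < (m : ℝ) * (y - x) := mul_lt_mul_of_pos_left hc' hm0
            nlinarith
        have h6 : ((b : ℝ) - a) * α i - ((⌊(b : ℝ) * α i⌋ - ⌊(a : ℝ) * α i⌋ : ℤ) : ℝ) = y - x := by
          rw [hx, hy]
          unfold Int.fract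
          push_cast
          ring
        calc |((b : ℝ) - a) * α i - round (((b : ℝ) - a) * α i)| ≤
            |((b : ℝ) - a) * α i - ((⌊(b : ℝ) * α i⌋ - ⌊(a : ℝ) * α i⌋ : ℤ) : ℝ)| := round_le _ _
          _ = |y - x| := by rw [h6]
          _ ≤ 1 / m := h5
      · rw [e]
        exact hP
    · rintro ⟨a, b⟩ hx ⟨a', b'⟩ hx' h
      rw [mem_coe, mem_filter] at hx hx'
      simp only [Prod.mk.injEq] at h hx hx' ⊢
      omega
  rw [card_product] at h2
  have h3 : (A.card : ℝ) ^ 2 * (N : ℝ) ^ (-ε) ≤ A.card * W.card := by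
    refine h1.trans ?_
    exact_mod_cast h2
  have hA0 : (0 : ℝ) < A.card := lt_of_lt_of_le (by positivity) hc
  have h4 : (A.card : ℝ) * (N : ℝ) ^ (-ε) ≤ W.card := by
    have : (A.card : ℝ) * ((A.card : ℝ) * (N : ℝ) ^ (-ε)) ≤ A.card * W.card := by
      refine le_trans (le_of_eq ?_) h3
      ring
    exact le_of_mul_le_mul_left this hA0
  refine le_trans ?_ h4
  calc (N : ℝ) ^ (1 - κ - ε) = (N : ℝ) ^ (1 - κ) * (N : ℝ) ^ (-ε) := by
        rw [← Real.rpow_add hN0]
        congr 1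
    _ ≤ _ := mul_le_mul_of_nonneg_right hc (by positivity)

end Pool.Agent.H16.P3
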