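import Pool.Agent.H16.P3.Chain
import Pool.Agent.H97.P3.Mert

/-!
# The primes which are 1 modulo 4 satisfy the density hypotheses
-/

set_option autoImplicit false

namespace Pool.Agent.H16.P3

open Finset

/-- the condition -/
def T4 (p : ℕ) (n : ℤ) : Prop := (p : ℤ) ∣ n ^ 2 + 1

open Classical in
/-- number of roots -/
noncomputable def rho4 (p : ℕ) : ℕ := ((range p).filter (fun r : ℕ => T4 p r)).card

lemma T4_per (p : ℕ) (n m : ℤ) (h : (p : ℤ) ∣ n - m) : T4 p n ↔ T4 p m := by
  unfold T4
  have h1 : (p : ℤ) ∣ (n ^ 2 + 1) - (m ^ 2 + 1) := by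
    have : (n ^ 2 + 1) - (m ^ 2 + 1) = (n - m) * (n + m) := by ring
    rw [this]
    exact h.mul_right _
  constructor
  · intro h2
    have := dvd_sub h2 h1
    have e : n ^ 2 + 1 - (n ^ 2 + 1 - (m ^ 2 + 1)) = m ^ 2 + 1 := by ring
    rwa [e] at this
  · intro h2
    have := dvd_add h2 h1
    have e : m ^ 2 + 1 + (n ^ 2 + 1 - (m ^ 2 + 1)) = n ^ 2 + 1 := by ring
    rwa [e] at this

lemma T4_even (p : ℕ) (n : ℤ) : T4 p n ↔ T4 p (-n) := by
  unfold T4
  rw [neg_sq]

lemma T4_zero (p : ℕ) (hp : p.Prime) : ¬ T4 p 0 := by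
  unfold T4
  intro h
  have h1 : (p : ℤ) ∣ 1 := by simpa using h
  have h2 := Int.natAbs_dvd_natAbs.2 h1
  simp at h2
  exact hp.one_lt.ne' h2

lemma rho4_le (p : ℕ) (hp : p.Prime) : rho4 p ≤ 2 := by
  classical
  unfold rho4
  by_contra hc
  push Not at hc
  obtain ⟨r, hr, s, hs, t, ht, h1, h2, h3⟩ := two_lt_card.1 hc
  rw [mem_filter, mem_range] at hr hs ht
  have key : ∀ r s : ℕ, r < p → s < p → T4 p r → T4 p s → r ≠ s → p ∣ r + s := by
    intro r s hr hs hr' hs' hne
    unfold T4 at hr' hs'
    have h4 := dvd_sub hr' hs'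
    have e : ((r : ℤ) ^ 2 + 1) - ((s : ℤ) ^ 2 + 1) = ((r : ℤ) - s) * ((r : ℤ) + s) := by ring
    rw [e] at h4
    rcases (Nat.prime_iff_prime_int.1 hp).dvd_or_dvd h4 with h5 | h5
    · exfalso
      obtain ⟨k, hk⟩ := h5
      have hk0 : k ≠ 0 := by
        rintro rfl
        apply hne
        omega
      have h6 : (p : ℤ) ≤ |(r : ℤ) - s| := by
        rw [hk, abs_mul, abs_of_nonneg (by positivity : (0 : ℤ) ≤ p)]
        have := Int.one_le_abs hk0
        nlinarith
      have h7 : |(r : ℤ) - s| < p := by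
        rw [abs_lt]
        constructor <;> omega
      omega
    · exact_mod_cast h5
  have a1 := key r s hr.1 hs.1 hr.2 hs.2 h1
  have a2 := key r t hr.1 ht.1 hr.2 ht.2 h2
  -- p | s - t
  have h4 : (p : ℤ) ∣ (s : ℤ) - t := by
    have := dvd_sub (Int.natCast_dvd_natCast.2 a1) (Int.natCast_dvd_natCast.2 a2)
    push_cast at this
    have e : (r : ℤ) + s - (r + t) = s - t := by ring
    rwa [e] at this
  obtain ⟨k, hk⟩ := h4
  have hk0 : k ≠ 0 := by
    rintro rfl
    apply h3
    omega
  have h6 : (p : ℤ) ≤ |(s : ℤ) - t| := by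
    rw [hk, abs_mul, abs_of_nonneg (by positivity : (0 : ℤ) ≤ p)]
    have := Int.one_le_abs hk0
    nlinarith
  have h7 : |(s : ℤ) - t| < p := by
    rw [abs_lt]
    constructor <;> omega
  omega

/-- a prime above 2 which is not 1 modulo 4 never divides `n ^ 2 + 1` -/
lemma T4_mod (p : ℕ) (hp : p.Prime) (h2 : 2 < p) (n : ℤ) (h : T4 p n) : p % 4 = 1 := by
  haveI := Fact.mk hp
  unfold T4 at h
  have h1 : ((n : ZMod p)) ^ 2 = -1 := by
    have h3 : (((n ^ 2 + 1 : ℤ)) : ZMod p) = 0 := (ZMod.intCast_zmod_eq_zero_iff_dvd _ _).2 h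
    push_cast at h3
    linear_combination h3
  have h3 : IsSquare (-1 : ZMod p) := ⟨(n : ZMod p), by rw [← h1]; ring⟩
  have h4 := (ZMod.exists_sq_eq_neg_one_iff (p := p)).1 h3
  have h5 : p % 2 = 1 := by
    rcases hp.eq_two_or_odd with h6 | h6
    · omega
    · exact h6
  omega

/-- the primes between `z` and `Y` which are 1 modulo 4 -/
noncomputable def Q4 (z : ℕ) (Y : ℝ) : Finset ℕ :=
  (Icc 1 ⌊Y⌋₊).filter (fun p => p.Prime ∧ z < p ∧ p % 4 = 1)

theorem dens4 : ∃ z₀ : ℕ, ∀ z : ℕ, z₀ ≤ z → ∀ Y : ℝ, Dens (Q4 z Y) (fun p => (rho4 p : ℝ) / p) := by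
  obtain ⟨C, hC0, hC⟩ := Pool.Agent.H97.P3.mertens4
  obtain ⟨z₁, hz₁⟩ := exists_nat_ge (Real.exp (C / 0.000001 + 2))
  refine ⟨max z₁ 10000000, fun z hz Y => ?_⟩
  have hz1 : z₁ ≤ z := (le_max_left _ _).trans hz
  have hz2 : 10000000 ≤ z := (le_max_right _ _).trans hz
  have hzR : (10000000 : ℝ) ≤ z := by exact_mod_cast hz2
  have hz0 : (0 : ℝ) < z := by linarith
  have hlz : C / 0.000001 + 2 ≤ Real.log z := by
    rw [Real.le_log_iff_exp_le hz0]
    exact hz₁.trans (by exact_mod_cast hz1)
  have hlz2 : 2 ≤ Real.log z := by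
    have : 0 ≤ C / 0.000001 := by positivity
    linarith
  have hCl : C / Real.log z ≤ 0.000001 := by
    rw [div_le_iff₀ (by linarith)]
    have : C = 0.000001 * (C / 0.000001) := by field_simp
    nlinarith
  have hmem : ∀ p ∈ Q4 z Y, p.Prime ∧ z < p ∧ p % 4 = 1 := fun p hp => (mem_filter.1 hp).2
  have hle2 : ∀ p ∈ Q4 z Y, (rho4 p : ℝ) / p ≤ 2 / p := by
    intro p hp
    apply div_le_div_of_nonneg_right _ (Nat.cast_nonneg p)
    exact_mod_cast rho4_le p (hmem p hp).1
  refine ⟨fun p hp => (hmem p hp).1.pos, fun p hp => by positivity, ?_, ?_⟩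
  · intro p hp
    refine (hle2 p hp).trans ?_
    have h1 : (z : ℝ) < p := by exact_mod_cast (hmem p hp).2.1
    rw [div_le_iff₀ (by linarith)]
    linarith
  · intro s t hs hst
    -- comparison with an interval of natural numbers
    have hgen : ∀ x : ℕ, z ≤ x → (∀ p ∈ IQ (Q4 z Y) s t, x < p) →
        ∑ p ∈ IQ (Q4 z Y) s t, (rho4 p : ℝ) / p ≤ max 0 (Real.log (t / Real.log x) + 0.000001) := by
      intro x hx hxp
      by_cases hxy : x ≤ ⌊Real.exp t⌋₊
      · refine le_trans ?_ (le_max_right _ _)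
        have hx0 : (10000000 : ℝ) ≤ x := hzR.trans (by exact_mod_cast hx)
        have h1 := hC x ⌊Real.exp t⌋₊ (by omega) hxy
        have hlx : Real.log z ≤ Real.log x := Real.log_le_log hz0 (by exact_mod_cast hx)
        have hlx0 : 0 < Real.log x := by linarith
        have h2 : ∑ p ∈ IQ (Q4 z Y) s t, (rho4 p : ℝ) / p ≤
            ∑ p ∈ (Ioc x ⌊Real.exp t⌋₊).filter (fun p => p.Prime ∧ p % 4 = 1), 2 / (p : ℝ) := by
          calc ∑ p ∈ IQ (Q4 z Y) s t, (rho4 p : ℝ) / p ≤ ∑ p ∈ IQ (Q4 z Y) s t, 2 / (p : ℝ) :=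
                sum_le_sum fun p hp => hle2 p (mem_filter.1 hp).1
            _ ≤ _ := by
                apply sum_le_sum_of_subset_of_nonneg
                · intro p hp
                  obtain ⟨h3, h4, h5⟩ := mem_filter.1 hp
                  obtain ⟨h6, h7, h8⟩ := hmem p h3
                  rw [mem_filter, mem_Ioc]
                  refine ⟨⟨hxp p hp, ?_⟩, h6, h8⟩
                  apply Nat.le_floor
                  have hp0 : (0 : ℝ) < p := by exact_mod_cast h6.pos
                  rw [← Real.exp_log hp0]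
                  exact Real.exp_le_exp.2 h5
                · intro p _ _
                  positivity
        refine h2.trans (h1.trans ?_)
        have hy : (x : ℝ) ≤ (⌊Real.exp t⌋₊ : ℝ) := by exact_mod_cast hxy
        have hy0 : (0 : ℝ) < (⌊Real.exp t⌋₊ : ℝ) := by linarith
        have hly : Real.log (⌊Real.exp t⌋₊ : ℝ) ≤ t := by
          rw [Real.log_le_iff_le_exp hy0]
          exact Nat.floor_le (Real.exp_pos t).le
        have hly0 : 0 < Real.log (⌊Real.exp t⌋₊ : ℝ) := by
          have := Real.log_le_log (by linarith) hy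
          linarith
        have h3 : Real.log (Real.log (⌊Real.exp t⌋₊ : ℝ) / Real.log x) ≤ Real.log (t / Real.log x) := by
          apply Real.log_le_log (by positivity)
          exact div_le_div_of_nonneg_right hly hlx0.le
        have h4 : C / Real.log x ≤ C / Real.log z := div_le_div_of_nonneg_left hC0 (by linarith) hlx
        linarith
      · refine le_trans (le_of_eq ?_) (le_max_left _ _)
        apply sum_eq_zero
        intro p hp
        exfalso
        apply hxy
        obtain ⟨h3, h4, h5⟩ := mem_filter.1 hp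
        have h6 := (hmem p h3).1
        have hp0 : (0 : ℝ) < p := by exact_mod_cast h6.pos
        have h7 : p ≤ ⌊Real.exp t⌋₊ := by
          apply Nat.le_floor
          rw [← Real.exp_log hp0]
          exact Real.exp_le_exp.2 h5
        exact (hxp p hp).le.trans h7
    have hts : 0 ≤ Real.log (t / s) := Real.log_nonneg (by rw [one_le_div hs]; exact hst)
    have ht0 : 0 < t := lt_of_lt_of_le hs hst
    rcases le_or_gt s (Real.log z) with hsz | hsz
    · refine (hgen z le_rfl (fun p hp => (hmem p (mem_filter.1 hp).1).2.1)).trans ?_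
      apply max_le (by linarith)
      have h3 : Real.log (t / Real.log z) ≤ Real.log (t / s) := by
        apply Real.log_le_log (by positivity)
        exact div_le_div_of_nonneg_left ht0.le hs hsz
      linarith
    · have hes : (z : ℝ) < Real.exp s := by
        rw [← Real.exp_log hz0]
        exact Real.exp_lt_exp.2 hsz
      refine (hgen ⌊Real.exp s⌋₊ (Nat.le_floor hes.le) ?_).trans ?_
      · intro p hp
        obtain ⟨h3, h4, h5⟩ := mem_filter.1 hp
        have hp0 : (0 : ℝ) < p := by exact_mod_cast (hmem p h3).1.pos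
        have h6 : Real.exp s < p := by
          rw [← Real.exp_log hp0]
          exact Real.exp_lt_exp.2 h4
        have h7 := Nat.floor_le (Real.exp_pos s).le
        exact_mod_cast lt_of_le_of_lt h7 h6
      · apply max_le (by linarith)
        have h8 := Nat.lt_floor_add_one (Real.exp s)
        have hx0 : (9999999 : ℝ) ≤ (⌊Real.exp s⌋₊ : ℝ) := by linarith
        set x : ℝ := (⌊Real.exp s⌋₊ : ℝ) with hx
        have h9 : s - 0.000001 ≤ Real.log x := by
          rw [Real.le_log_iff_exp_le (by linarith)]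
          rw [Real.exp_sub, div_le_iff₀ (Real.exp_pos _)]
          have h10 : 1 + 0.000001 ≤ Real.exp 0.000001 := by
            have := Real.add_one_le_exp (0.000001 : ℝ)
            linarith
          nlinarith
        have h10 : Real.log (t / Real.log x) ≤ Real.log (t / s) + 0.000002 := by
          have h11 : t / Real.log x = (t / s) * (s / Real.log x) := by
            field_simp
          have h12 : 0 < Real.log x := by linarith
          rw [h11, Real.log_mul (by positivity) (by positivity)]
          have h13 : Real.log (s / Real.log x) ≤ s / Real.log x - 1 := Real.log_le_sub_one_of_pos (by positivity)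
          have h14 : s / Real.log x ≤ 1 + 0.000002 := by
            rw [div_le_iff₀ h12]
            nlinarith
          linarith
        linarith

end Pool.Agent.H16.P3
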