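import Pool.Agent.H16.P3.Three
import Pool.Agent.H13.P3.Tw
import Pool.Agent.H31.P3.End

/-!
# Differences of sparse sets at which `n ^ 2 + 1` has at most three prime factors
-/

set_option autoImplicit false

namespace Pool.Agent.H16.P3

open Finset
open Pool.Agent.H14.VC

open Classical in
theorem twst : TwSt := by
  obtain ⟨s, hs, H⟩ := Pool.Agent.H13.P3.twisted 2 (by norm_num) 0.03 (by norm_num)
  refine ⟨s, hs, fun k hk => ?_⟩
  obtain ⟨z₀, hz₀, H2⟩ := H k hk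
  refine ⟨z₀, hz₀, ?_⟩
  intro z hz M D hD hM Q hQ hQs l1 l2 hl hsupp h1 h2 h3 A hA
  have hrho : ∀ p : ℕ, (((range p).filter (fun r : ℕ => T4 p r)).card : ℝ) = (rho4 p : ℝ) := by
    intro p
    unfold rho4
    congr 2
  have hV : ∀ l : Finset ℕ → ℝ, Pool.Agent.H13.P3.Vd T4 Q l = gen Q l (fun p => (rho4 p : ℝ) / p) := by
    intro l
    unfold Pool.Agent.H13.P3.Vd gen
    apply sum_congr rfl
    intro U _
    congr 1
  have h := H2 z hz M D hD hM T4 T4_per T4_even T4_zero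
    (fun p hp => by
      have := rho4_le p hp
      unfold rho4 at this
      convert this using 2) Q hQ hQs l1 l2 hl hsupp (by rw [hV]; exact h1)
    (by rw [hV, hV]; exact h2) (by rw [hV]; exact h3) A hA
  exact h

/-- the differences are handled on every interval; square factors removed -/
theorem power_three_aux
    (hsq : ∃ N₀ : ℕ, ∀ N : ℕ, N₀ ≤ N → ∀ A ⊆ Finset.Icc 1 N,
      ((by classical exact ((A ×ˢ A).filter (fun x : ℕ × ℕ => x.1 < x.2 ∧ ∃ p : ℕ, p.Prime ∧ (N : ℝ) ^ (0.1 : ℝ) < p ∧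
        (p : ℝ) ≤ (N : ℝ) ^ (0.99 : ℝ) ∧ (p : ℤ) ^ 2 ∣ ((x.2 : ℤ) - x.1) ^ 2 + 1)).card : ℕ) : ℝ) ≤
        A.card * (N : ℝ) ^ (0.995 : ℝ))
    (hom : ∃ N₀ : ℕ, ∀ N : ℕ, N₀ ≤ N → ∀ n : ℕ, 0 < n → n < N →
      (∀ p : ℕ, p.Prime → p ∣ n ^ 2 + 1 → (N : ℝ) ^ (0.1 : ℝ) < p) →
      (∀ p : ℕ, p.Prime → (p : ℝ) ≤ (N : ℝ) ^ (0.99 : ℝ) → ¬ p ^ 2 ∣ n ^ 2 + 1) →
      ∑ p ∈ ((n ^ 2 + 1).primeFactors.filter (fun p : ℕ => Real.log p ≤ 10 / 11 * Real.log N) : Finset ℕ),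
        (5 / 9 * (1 - 1.1 * Real.log (p : ℕ) / Real.log N)) < 1 →
      ArithmeticFunction.cardFactors (n ^ 2 + 1) ≤ 3) :
    ∃ κ : ℝ, 0 < κ ∧ ∀ ε : ℝ, 0 < ε → ∃ N₀ : ℕ, ∀ N : ℕ, N₀ ≤ N → ∀ A ⊆ Icc 1 N,
      (N : ℝ) ^ (1 - κ) ≤ A.card → ∃ G : Finset (ℕ × ℕ), (A.card : ℝ) ^ 2 * (N : ℝ) ^ (-ε) ≤ G.card ∧
        ∀ x ∈ G, x ∈ A ×ˢ A ∧ x.1 < x.2 ∧
          (∀ p : ℕ, p.Prime → (p : ℤ) ∣ ((x.2 : ℤ) - x.1) ^ 2 + 1 → (N : ℝ) ^ (0.1 : ℝ) < p) ∧
          ArithmeticFunction.cardFactors (((x.2 : ℤ) - x.1) ^ 2 + 1).natAbs ≤ 3 := by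
  classical
  obtain ⟨N₁, hN₁⟩ := hsq
  obtain ⟨N₂, hN₂⟩ := hom
  obtain ⟨η, hη0, hη1, H⟩ := good_pairs twst
  refine ⟨η, hη0, ?_⟩
  intro ε hε
  -- smaller exponent
  obtain ⟨δ, hδ⟩ : ∃ δ : ℝ, δ = min (ε / 2) 0.001 := ⟨_, rfl⟩
  have hδ0 : 0 < δ := by rw [hδ]; positivity
  have hδε : δ ≤ ε / 2 := by rw [hδ]; exact min_le_left _ _
  have hδ1 : δ ≤ 0.001 := by rw [hδ]; exact min_le_right _ _
  obtain ⟨N₃, hN₃⟩ := H δ hδ0
  have ten : ∀ t : ℝ, 0 < t → ∀ c : ℝ, ∀ᶠ N : ℕ in Filter.atTop, c ≤ (N : ℝ) ^ t := by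
    intro t ht c
    exact ((tendsto_rpow_atTop ht).comp tendsto_natCast_atTop_atTop).eventually_ge_atTop c
  obtain ⟨N₄, hN₄⟩ := Filter.eventually_atTop.1 ((ten 0.001 (by norm_num) 2).and (ten (ε / 2) (by positivity) 2))
  refine ⟨max (max N₁ N₂) (max (max N₃ N₄) 3), ?_⟩
  intro N hN A hA hAc
  have b1 : N₁ ≤ N := (le_max_left _ _).trans ((le_max_left _ _).trans hN)
  have b2 : N₂ ≤ N := (le_max_right _ _).trans ((le_max_left _ _).trans hN)
  have b3 : N₃ ≤ N := (le_max_left _ _).trans ((le_max_left _ _).trans ((le_max_right _ _).trans hN))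
  have b4 : N₄ ≤ N := (le_max_right _ _).trans ((le_max_left _ _).trans ((le_max_right _ _).trans hN))
  have b5 : 3 ≤ N := (le_max_right _ _).trans ((le_max_right _ _).trans hN)
  obtain ⟨g1, g2⟩ := hN₄ N b4
  have hNR : (3 : ℝ) ≤ N := by exact_mod_cast b5
  have hN0 : (0 : ℝ) < N := by linarith
  have hN1 : (1 : ℝ) ≤ N := by linarith
  obtain ⟨z, hz2, hzle, hgood⟩ := hN₃ N b3
  have hg := hgood A hA hAc
  have hs := hN₁ N b1 A hA
  set Q := Q4 z ((N : ℝ) ^ (10 / 11 : ℝ)) with hQ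
  set R := RQ Q (Real.log N / 10) with hR
  set G1 := (A ×ˢ A).filter (fun x : ℕ × ℕ => x.1 < x.2 ∧ Good Q R (cw4 N) z ((x.2 : ℤ) - x.1)) with hG1
  set B1 := (A ×ˢ A).filter (fun x : ℕ × ℕ => x.1 < x.2 ∧ ∃ p : ℕ, p.Prime ∧ (N : ℝ) ^ (0.1 : ℝ) < p ∧
        (p : ℝ) ≤ (N : ℝ) ^ (0.99 : ℝ) ∧ (p : ℤ) ^ 2 ∣ ((x.2 : ℤ) - x.1) ^ 2 + 1) with hB1
  refine ⟨G1 \ B1, ?_, ?_⟩
  · -- counting
    have h1 : (G1.card : ℝ) ≤ (G1 \ B1).card + B1.card := by
      have : G1.card ≤ (G1 \ B1).card + B1.card := by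
        have h2 : G1 ⊆ (G1 \ B1) ∪ B1 := by
          intro x hx
          by_cases h : x ∈ B1
          · exact mem_union_right _ h
          · exact mem_union_left _ (mem_sdiff.2 ⟨hx, h⟩)
        exact (card_le_card h2).trans (card_union_le _ _)
      exact_mod_cast this
    have hs' : (B1.card : ℝ) ≤ A.card * (N : ℝ) ^ (0.995 : ℝ) := by
      convert hs using 3
    obtain ⟨a, ha⟩ : ∃ a : ℝ, a = A.card := ⟨_, rfl⟩
    rw [← ha] at hg hs' hAc ⊢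
    have ha0 : 0 ≤ a := by rw [ha]; exact Nat.cast_nonneg _
    -- the square factors are negligible
    have h3 : a * (N : ℝ) ^ (0.995 : ℝ) ≤ a ^ 2 * (N : ℝ) ^ (-δ) / 2 := by
      have h4 : (N : ℝ) ^ (0.995 : ℝ) * 2 ≤ a * (N : ℝ) ^ (-δ) := by
        calc (N : ℝ) ^ (0.995 : ℝ) * 2 ≤ (N : ℝ) ^ (0.995 : ℝ) * (N : ℝ) ^ (0.001 : ℝ) :=
              mul_le_mul_of_nonneg_left g1 (by positivity)
          _ = (N : ℝ) ^ (0.996 : ℝ) := by
              rw [← Real.rpow_add hN0]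
              norm_num
          _ ≤ (N : ℝ) ^ ((1 - η) + (-δ)) := by
              apply Real.rpow_le_rpow_of_exponent_le hN1
              linarith
          _ = (N : ℝ) ^ (1 - η) * (N : ℝ) ^ (-δ) := Real.rpow_add hN0 _ _
          _ ≤ a * (N : ℝ) ^ (-δ) := mul_le_mul_of_nonneg_right hAc (by positivity)
      nlinarith
    have h5 : a ^ 2 * (N : ℝ) ^ (-ε) ≤ a ^ 2 * (N : ℝ) ^ (-δ) / 2 := by
      have h6 : (N : ℝ) ^ (-ε) * 2 ≤ (N : ℝ) ^ (-δ) := by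
        calc (N : ℝ) ^ (-ε) * 2 ≤ (N : ℝ) ^ (-ε) * (N : ℝ) ^ (ε / 2) :=
              mul_le_mul_of_nonneg_left g2 (by positivity)
          _ = (N : ℝ) ^ (-ε + ε / 2) := (Real.rpow_add hN0 _ _).symm
          _ ≤ _ := by
              apply Real.rpow_le_rpow_of_exponent_le hN1
              linarith
      have : 0 ≤ a ^ 2 := sq_nonneg a
      nlinarith
    linarith
  · rintro ⟨a, b⟩ hx
    obtain ⟨hx1, hx2⟩ := mem_sdiff.1 hx
    obtain ⟨hx3, hab, hgd⟩ := mem_filter.1 hx1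
    simp only at hab hgd
    have hmemA := mem_product.1 hx3
    have haI := mem_Icc.1 (hA hmemA.1)
    have hbI := mem_Icc.1 (hA hmemA.2)
    simp only at haI hbI
    obtain ⟨n, hn⟩ : ∃ n : ℕ, n = b - a := ⟨_, rfl⟩
    have hn0 : 0 < n := by omega
    have hnN : n < N := by omega
    have hnZ : (b : ℤ) - a = n := by omega
    simp only
    rw [hnZ] at hgd ⊢
    obtain ⟨q1, q2, q3⟩ := hgd
    have hdv : ∀ p : ℕ, (p : ℤ) ∣ ((n : ℤ)) ^ 2 + 1 ↔ p ∣ n ^ 2 + 1 := by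
      intro p
      have : ((n : ℤ)) ^ 2 + 1 = ((n ^ 2 + 1 : ℕ) : ℤ) := by push_cast; ring
      rw [this]
      exact Int.natCast_dvd_natCast
    -- the small primes
    have hz99 : (z : ℝ) ≤ (N : ℝ) ^ (10 / 11 : ℝ) :=
      hzle.trans (Real.rpow_le_rpow_of_exponent_le hN1 (by norm_num))
    have hbig : ∀ p : ℕ, p.Prime → p ∣ n ^ 2 + 1 → z < p := by
      intro p hp hd
      by_contra hc
      push Not at hc
      apply q1 p
      · rw [mem_filter, mem_Icc]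
        exact ⟨⟨hp.pos, hc⟩, hp⟩
      · exact (hdv p).2 hd
    have hmemQ : ∀ p : ℕ, p.Prime → p ∣ n ^ 2 + 1 → (p : ℝ) ≤ (N : ℝ) ^ (10 / 11 : ℝ) → p ∈ Q := by
      intro p hp hd hle
      have h1 := hbig p hp hd
      refine mem_filter.2 ⟨mem_Icc.2 ⟨hp.pos, Nat.le_floor hle⟩, hp, h1, ?_⟩
      exact T4_mod p hp (by omega) n ((hdv p).2 hd)
    have hrough : ∀ p : ℕ, p.Prime → p ∣ n ^ 2 + 1 → (N : ℝ) ^ (0.1 : ℝ) < p := by
      intro p hp hd
      by_contra hc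
      push Not at hc
      have hp0 : (0 : ℝ) < p := by exact_mod_cast hp.pos
      apply q2 p
      · refine mem_filter.2 ⟨hmemQ p hp hd (hc.trans (Real.rpow_le_rpow_of_exponent_le hN1 (by norm_num))), ?_⟩
        have h1 := Real.log_le_log hp0 hc
        rw [Real.log_rpow hN0] at h1
        linarith
      · exact (hdv p).2 hd
    refine ⟨hx3, hab, fun p hp hd => hrough p hp ((hdv p).1 hd), ?_⟩
    have hnat : (((n : ℤ)) ^ 2 + 1).natAbs = n ^ 2 + 1 := by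
      have : ((n : ℤ)) ^ 2 + 1 = ((n ^ 2 + 1 : ℕ) : ℤ) := by push_cast; ring
      rw [this, Int.natAbs_natCast]
    rw [hnat]
    apply hN₂ N b2 n hn0 hnN hrough
    · -- no square factors
      intro p hp hple hd
      apply hx2
      refine mem_filter.2 ⟨hx3, hab, p, hp, hrough p hp ((dvd_pow_self p two_ne_zero).trans hd), hple, ?_⟩
      simp only
      rw [hnZ]
      have : ((n : ℤ)) ^ 2 + 1 = ((n ^ 2 + 1 : ℕ) : ℤ) := by push_cast; ring
      rw [this]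
      exact_mod_cast hd
    · -- the weights
      refine lt_of_le_of_lt (le_of_eq ?_) q3
      apply sum_congr
      · ext p
        rw [mem_filter, mem_filter, mem_sdiff, Nat.mem_primeFactors]
        constructor
        · rintro ⟨⟨hp, hd, _⟩, hl⟩
          have hp0 : (0 : ℝ) < p := by exact_mod_cast hp.pos
          have hple : (p : ℝ) ≤ (N : ℝ) ^ (10 / 11 : ℝ) := by
            rw [← Real.exp_log hp0, Real.rpow_def_of_pos hN0]
            apply Real.exp_le_exp.2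
            linarith
          refine ⟨⟨hmemQ p hp hd hple, ?_⟩, (hdv p).2 hd⟩
          intro h
          have h1 := (mem_filter.1 h).2
          have h2 := Real.log_lt_log (by positivity) (hrough p hp hd)
          rw [Real.log_rpow hN0] at h2
          linarith
        · rintro ⟨⟨hpQ, _⟩, hT⟩
          have h1 := mem_filter.1 hpQ
          have hp := h1.2.1
          refine ⟨⟨hp, (hdv p).1 hT, by positivity⟩, ?_⟩
          have h2 := (mem_Icc.1 h1.1).2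
          have h3 : (p : ℝ) ≤ (N : ℝ) ^ (10 / 11 : ℝ) := (Nat.le_floor_iff (by positivity)).1 h2
          have hp0 : (0 : ℝ) < p := by exact_mod_cast hp.pos
          have h4 := Real.log_le_log hp0 h3
          rw [Real.log_rpow hN0] at h4
          exact h4
      · intro p _
        rfl

open Classical in
/-- **Power saving: at most three prime factors.** -/
theorem power_three : ∃ κ : ℝ, 0 < κ ∧ ∀ ε : ℝ, 0 < ε → ∃ N₀ : ℕ, ∀ N : ℕ, N₀ ≤ N →
    ∀ (u : ℕ) (A : Finset ℕ), A ⊆ Ioc u (u + N) → (N : ℝ) ^ (1 - κ) ≤ A.card →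
      (A.card : ℝ) ^ 2 * (N : ℝ) ^ (-ε) ≤
        ((A ×ˢ A).filter (fun x : ℕ × ℕ => x.1 < x.2 ∧
          (∀ p : ℕ, p.Prime → (p : ℤ) ∣ ((x.2 : ℤ) - x.1) ^ 2 + 1 → (N : ℝ) ^ (1 / 10 : ℝ) < p) ∧
          ArithmeticFunction.cardFactors (((x.2 : ℤ) - x.1) ^ 2 + 1).natAbs ≤ 3)).card := by
  obtain ⟨κ, hκ, H⟩ := power_three_aux Pool.Agent.H31.P3.squares Pool.Agent.H31.P3.omega3
  refine ⟨κ, hκ, fun ε hε => ?_⟩
  obtain ⟨N₀, hN₀⟩ := H ε hε
  refine ⟨N₀, fun N hN u A hA hAc => ?_⟩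
  have hinj : Set.InjOn (fun a : ℕ => a - u) A := by
    intro a ha b hb h
    have h1 := (mem_Ioc.1 (hA ha)).1
    have h2 := (mem_Ioc.1 (hA hb)).1
    simp only at h
    omega
  have hcard : (A.image (fun a => a - u)).card = A.card := card_image_of_injOn hinj
  obtain ⟨G, hG1, hG2⟩ := hN₀ N hN (A.image (fun a => a - u)) (by
    intro x hx
    obtain ⟨a, ha, rfl⟩ := mem_image.1 hx
    have := mem_Ioc.1 (hA ha)
    rw [mem_Icc]
    omega) (by rw [hcard]; exact hAc)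
  rw [hcard] at hG1
  refine hG1.trans ?_
  apply Nat.cast_le.2
  apply card_le_card_of_injOn (fun x : ℕ × ℕ => (x.1 + u, x.2 + u))
  · rintro ⟨a, b⟩ hx
    obtain ⟨h1, h2, h3, h4⟩ := hG2 _ hx
    obtain ⟨ha, hb⟩ := mem_product.1 h1
    simp only at ha hb h2 h3 h4
    have hsh : ∀ c : ℕ, c ∈ A.image (fun a => a - u) → c + u ∈ A := by
      intro c hc
      obtain ⟨a', ha', rfl⟩ := mem_image.1 hc
      have := (mem_Ioc.1 (hA ha')).1
      have e : a' - u + u = a' := by omega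
      rw [e]
      exact ha'
    have e : (((b + u : ℕ) : ℤ) - ((a + u : ℕ) : ℤ)) = (b : ℤ) - a := by
      push_cast
      ring
    rw [mem_coe, mem_filter, mem_product]
    simp only
    rw [e]
    refine ⟨⟨hsh a ha, hsh b hb⟩, by omega, ?_, h4⟩
    intro p hp hd
    have := h3 p hp hd
    norm_num at this ⊢
    exact this
  · rintro ⟨a, b⟩ _ ⟨c, d⟩ _ h
    simp only [Prod.mk.injEq] at h
    rw [Prod.mk.injEq]
    omega

end Pool.Agent.H16.P3
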