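import Pool.Agent.H16.P3.Compose

/-!
# The weighted sieve of dimension one: numerical part
-/

set_option autoImplicit false

namespace Pool.Agent.H16.P3

open Finset

/-- levels -/
noncomputable def KK (n : ℕ) : ℝ := 4 + (32 / 7) / 2 ^ n

/-- factors -/
noncomputable def FF (n : ℕ) : ℝ := Real.exp (3.1 * Xb 4) * (1 + Xb 2) ^ n

lemma FF_pos (n : ℕ) : 0 < FF n := by
  unfold FF
  have := Xb_nonneg 2
  positivity

lemma KK_succ (n : ℕ) : KK (n + 1) = 2 + KK n / 2 := by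
  unfold KK
  rw [pow_succ]
  field_simp
  ring

variable {Q : Finset ℕ} {a : ℕ → ℝ}

lemma up_fam (hd : Dens Q a) (m n : ℕ) : ∀ t : ℝ, 0 < t → RQ Q (t / 2 ^ n / 8 ^ m) = ∅ →
    Up (RQ Q t) a (Real.exp (t * KK n)) (FF n) := by
  induction n with
  | zero =>
    intro t ht h
    rw [pow_zero, div_one] at h
    have h1 := up_tail hd m t 4 ht (by decide) le_rfl h
    have e1 : (2 * ((4 : ℕ) : ℝ) + 4 / 7) = KK 0 := by
      unfold KK
      norm_num
    have e2 : FF 0 = Real.exp (3.1 * Xb 4) := by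
      unfold FF
      simp
    rw [e1] at h1
    rw [e2]
    exact h1
  | succ n ih =>
    intro t ht h
    have h1 := ih (t / 2) (by positivity) (by
      have e : t / 2 / 2 ^ n = t / 2 ^ (n + 1) := by
        rw [pow_succ, div_div]
        congr 1
        ring
      rw [e]
      exact h)
    have h2 := up_one hd t ht 2 (by decide) _ _ (FF_pos n).le h1
    have e1 : Real.exp t ^ 2 * Real.exp (t / 2 * KK n) = Real.exp (t * KK (n + 1)) := by
      rw [← Real.exp_nat_mul, ← Real.exp_add, KK_succ]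
      congr 1
      push_cast
      ring
    have e2 : FF n * (1 + Xb 2) = FF (n + 1) := by
      unfold FF
      rw [pow_succ]
      ring
    rw [e1, e2] at h2
    exact h2

lemma RQ_sub (Q : Finset ℕ) (s t : ℝ) (h : s ≤ t) : RQ Q s ⊆ RQ Q t := by
  intro p hp
  unfold RQ at hp ⊢
  rw [mem_filter] at hp ⊢
  exact ⟨hp.1, hp.2.trans h⟩

lemma RQ_emp (Q : Finset ℕ) (s t : ℝ) (h : s ≤ t) (ht : RQ Q t = ∅) : RQ Q s = ∅ :=
  subset_empty.1 (ht ▸ RQ_sub Q s t h)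

lemma IQ_split (Q : Finset ℕ) (r s t : ℝ) (h1 : r ≤ s) (h2 : s ≤ t) (f : ℕ → ℝ) :
    ∑ p ∈ IQ Q r t, f p = ∑ p ∈ IQ Q r s, f p + ∑ p ∈ IQ Q s t, f p := by
  rw [← sum_union]
  · apply sum_congr _ fun _ _ => rfl
    ext p
    simp only [IQ, mem_union, mem_filter]
    constructor
    · rintro ⟨q1, q2, q3⟩
      rcases le_or_gt (Real.log p) s with q4 | q4
      · exact Or.inl ⟨q1, q2, q4⟩
      · exact Or.inr ⟨q1, q4, q3⟩
    · rintro (⟨q1, q2, q3⟩ | ⟨q1, q2, q3⟩)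
      · exact ⟨q1, q2, q3.trans h2⟩
      · exact ⟨q1, lt_of_le_of_lt h1 q2, q3⟩
  · rw [disjoint_left]
    intro p q1 q2
    simp only [IQ, mem_filter] at q1 q2
    linarith [q1.2.2, q2.2.1]

/-- comparison of the products -/
lemma prod_ratio (hd : Dens Q a) (ν τ : ℝ) (hν : 0 < ν) (hτ : 0.019 ≤ τ) (hτ1 : τ ≤ 1 / 10) :
    ∏ p ∈ RQ Q (τ * ν), (1 - a p) ≤ (1.0005 * (1 / (10 * τ))) * ∏ p ∈ RQ Q (ν / 10), (1 - a p) := by
  have hle : τ * ν ≤ ν / 10 := by nlinarith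
  have hτ0 : 0 < τ := by linarith
  rw [← RQ_union Q (τ * ν) (ν / 10) hle, prod_union (RQ_disj Q _ _)]
  have h0 : 0 ≤ ∏ p ∈ RQ Q (τ * ν), (1 - a p) :=
    prod_nonneg fun p hp => by linarith [(hd.le_one p (mem_filter.1 hp).1).2]
  have hsub : ∀ p ∈ IQ Q (τ * ν) (ν / 10), p ∈ Q := fun p hp => (mem_filter.1 hp).1
  have h4 := prod_lower (IQ Q (τ * ν) (ν / 10)) a (fun p hp => hd.nn p (hsub p hp))
    (fun p hp => hd.small p (hsub p hp))
  have h1 := hd.sum (τ * ν) (ν / 10) (by positivity) hle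
  have e : ν / 10 / (τ * ν) = 1 / (10 * τ) := by field_simp
  rw [e] at h1
  set ℓ := Real.log (1 / (10 * τ)) with hℓ
  have hℓ0 : 0 ≤ ℓ := by
    apply Real.log_nonneg
    rw [le_div_iff₀ (by positivity)]
    linarith
  have hℓ2 : ℓ ≤ 2 := by
    rw [hℓ, Real.log_le_iff_le_exp (by positivity)]
    have h5 : (1 : ℝ) / (10 * τ) ≤ 6 := by
      rw [div_le_iff₀ (by positivity)]
      linarith
    have h6 : (2.7 : ℝ) ^ 2 ≤ Real.exp 1 ^ 2 := by
      apply pow_le_pow_left₀ (by norm_num)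
      linarith [Real.exp_one_gt_d9]
    have h7 : Real.exp 2 = Real.exp 1 ^ 2 := by
      rw [← Real.exp_nat_mul]
      norm_num
    rw [h7]
    linarith
  have h8 : Real.exp (-ℓ) * (1 - 0.0003) ≤ ∏ p ∈ IQ Q (τ * ν) (ν / 10), (1 - a p) := by
    refine le_trans ?_ h4
    have h9 : Real.exp (-ℓ) * Real.exp (-0.0003) ≤ Real.exp (-(1.0001 * ∑ p ∈ IQ Q (τ * ν) (ν / 10), a p)) := by
      rw [← Real.exp_add]
      apply Real.exp_le_exp.2
      nlinarith
    refine le_trans ?_ h9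
    apply mul_le_mul_of_nonneg_left _ (Real.exp_pos _).le
    have := Real.add_one_le_exp (-0.0003 : ℝ)
    linarith
  have h10 : Real.exp (-ℓ) = 10 * τ := by
    rw [Real.exp_neg, hℓ, Real.exp_log (by positivity)]
    field_simp
  rw [h10] at h8
  have h11 : 1 ≤ (1.0005 * (1 / (10 * τ))) * ∏ p ∈ IQ Q (τ * ν) (ν / 10), (1 - a p) := by
    calc (1 : ℝ) ≤ 1.0005 * (1 - 0.0003) := by norm_num
      _ = (1.0005 * (1 / (10 * τ))) * (10 * τ * (1 - 0.0003)) := by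
          field_simp
      _ ≤ _ := mul_le_mul_of_nonneg_left h8 (by positivity)
  calc ∏ p ∈ RQ Q (τ * ν), (1 - a p) = (∏ p ∈ RQ Q (τ * ν), (1 - a p)) * 1 := (mul_one _).symm
    _ ≤ (∏ p ∈ RQ Q (τ * ν), (1 - a p)) *
        ((1.0005 * (1 / (10 * τ))) * ∏ p ∈ IQ Q (τ * ν) (ν / 10), (1 - a p)) :=
        mul_le_mul_of_nonneg_left h11 h0
    _ = _ := by ring

/-- the sum over one class -/
lemma class_sum (hd : Dens Q a) (ν : ℝ) (hν : 0 < ν) (α β τ L f : ℝ) (n : ℕ) (hα : 0 < α) (hαβ : α ≤ β)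
    (hβ : β ≤ 10 / 11) (hτ : 0.019 ≤ τ) (hτ1 : τ ≤ 1 / 10) (hL : Real.log (β / α) + 0.00001 ≤ L)
    (hf : FF n ≤ f)
    (Rp : ℕ → Finset ℕ) (Fp : ℕ → ℝ)
    (hR : ∀ p ∈ IQ Q (α * ν) (β * ν), Rp p = RQ Q (τ * ν) ∧ Fp p = FF n) :
    ∑ p ∈ IQ Q (α * ν) (β * ν), (5 / 9 * (1 - 1.1 * Real.log p / ν)) * a p * (Fp p * ∏ q ∈ Rp p, (1 - a q)) ≤
      (5 / 9 * (1 - 1.1 * α) * L * (f * (1.0005 * (1 / (10 * τ))))) * ∏ q ∈ RQ Q (ν / 10), (1 - a q) := by
  have hτ0 : 0 < τ := by linarith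
  set V := ∏ q ∈ RQ Q (ν / 10), (1 - a q) with hV
  have hV0 : 0 ≤ V := prod_nonneg fun p hp => by linarith [(hd.le_one p (mem_filter.1 hp).1).2]
  have hf0 : 0 < FF n := FF_pos n
  have hα1 : 0 ≤ 1 - 1.1 * α := by linarith
  have h1 : ∀ p ∈ IQ Q (α * ν) (β * ν), (5 / 9 * (1 - 1.1 * Real.log p / ν)) * a p *
      (Fp p * ∏ q ∈ Rp p, (1 - a q)) ≤
      (5 / 9 * (1 - 1.1 * α)) * a p * (f * (1.0005 * (1 / (10 * τ)) * V)) := by
    intro p hp
    obtain ⟨hR1, hR2⟩ := hR p hp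
    obtain ⟨hp1, hp2, hp3⟩ := mem_filter.1 hp
    rw [hR1, hR2]
    have e1 := prod_ratio hd ν τ hν hτ hτ1
    have e0 : 0 ≤ ∏ q ∈ RQ Q (τ * ν), (1 - a q) :=
      prod_nonneg fun q hq => by linarith [(hd.le_one q (mem_filter.1 hq).1).2]
    have e2 : 1 - 1.1 * Real.log p / ν ≤ 1 - 1.1 * α := by
      have : α ≤ Real.log p / ν := by
        rw [le_div_iff₀ hν]
        exact hp2.le
      have e3 : 1.1 * Real.log p / ν = 1.1 * (Real.log p / ν) := by ring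
      rw [e3]
      linarith
    have hap := hd.nn p hp1
    apply mul_le_mul
    · apply mul_le_mul_of_nonneg_right _ hap
      linarith
    · exact mul_le_mul hf e1 e0 (hf0.le.trans hf)
    · exact mul_nonneg hf0.le e0
    · positivity
  refine (sum_le_sum h1).trans ?_
  rw [← sum_mul, ← mul_sum]
  have h2 := hd.sum (α * ν) (β * ν) (by positivity) (by nlinarith)
  have e : β * ν / (α * ν) = β / α := by field_simp
  rw [e] at h2
  have h3 : ∑ p ∈ IQ Q (α * ν) (β * ν), a p ≤ L := h2.trans hL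
  have hf1 : 0 ≤ f := hf0.le.trans hf
  calc (5 / 9 * (1 - 1.1 * α)) * (∑ p ∈ IQ Q (α * ν) (β * ν), a p) * (f * (1.0005 * (1 / (10 * τ)) * V)) ≤
      (5 / 9 * (1 - 1.1 * α)) * L * (f * (1.0005 * (1 / (10 * τ)) * V)) := by
        apply mul_le_mul_of_nonneg_right
        · exact mul_le_mul_of_nonneg_left h3 (by positivity)
        · positivity
    _ = _ := by ring

lemma log_ub (r c : ℝ) (hr : 0 < r) (hc : 0 ≤ c)
    (h : r ≤ 1 + c + c ^ 2 / 2 + c ^ 3 / 6 + c ^ 4 / 24 + c ^ 5 / 120) : Real.log r ≤ c := by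
  rw [Real.log_le_iff_le_exp hr]
  refine h.trans ?_
  have := Real.sum_le_exp_of_nonneg hc 6
  simp only [sum_range_succ, range_zero, sum_empty, Nat.factorial] at this
  norm_num at this
  linarith

lemma Xb2_ub : Xb 2 ≤ 0.11152 := by
  unfold Xb
  norm_num [Nat.factorial]

lemma Xb4_ub : Xb 4 ≤ 0.0026857 := by
  unfold Xb
  norm_num [Nat.factorial]

lemma FF_ub (n : ℕ) : FF n ≤ 1.0084 * 1.11152 ^ n := by
  unfold FF
  have h1 := Xb2_ub
  have h2 := Xb4_ub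
  have h3 := Xb_nonneg 2
  have h4 := Xb_nonneg 4
  have h5 : Real.exp (3.1 * Xb 4) ≤ 1.0084 := by
    refine (Real.exp_le_exp.2 (show 3.1 * Xb 4 ≤ 0.00832567 by linarith)).trans ?_
    refine (Real.exp_bound_div_one_sub_of_interval (x := 0.00832567) (by norm_num) (by norm_num)).trans ?_
    norm_num
  have h6 : (1 + Xb 2) ^ n ≤ 1.11152 ^ n := pow_le_pow_left₀ (by positivity) (by linarith) n
  exact mul_le_mul h5 h6 (by positivity) (by norm_num)

/-- parameters of the classes -/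
noncomputable def cls (x : ℝ) : ℕ × ℝ :=
  if x ≤ 0.14 then (0, 0.1) else
  if x ≤ 0.19 then (0, 0.0942) else
  if x ≤ 0.27 then (1, 0.1) else
  if x ≤ 0.37 then (1, 0.0999) else
  if x ≤ 0.48 then (2, 0.1) else
  if x ≤ 0.55 then (3, 0.098) else
  if x ≤ 0.62 then (3, 0.0826) else
  if x ≤ 0.69 then (3, 0.0673) else
  if x ≤ 0.75 then (3, 0.0542) else
  if x ≤ 0.81 then (3, 0.0411) else
  if x ≤ 0.86 then (3, 0.0301) else (3, 0.0194)

lemma cls_ok (x : ℝ) (hx : x ≤ 10 / 11) : 0.019 ≤ (cls x).2 ∧ (cls x).2 ≤ 1 / 10 ∧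
    x + (cls x).2 * KK (cls x).1 ≤ 0.9985 := by
  unfold cls KK
  split_ifs <;> (refine ⟨?_, ?_, ?_⟩ <;> norm_num <;> linarith)

end Pool.Agent.H16.P3
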