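import Pool.Agent.H16.P3.Num

/-!
# The weighted sieve of dimension one: existence of the weights
-/

set_option autoImplicit false

namespace Pool.Agent.H16.P3

open Finset

variable {Q : Finset ℕ} {a : ℕ → ℝ}

lemma sdiff_RQ (ν : ℝ) (hmax : ∀ p ∈ Q, Real.log p ≤ 10 / 11 * ν) :
    Q \ RQ Q (ν / 10) = IQ Q (0.1 * ν) (10 / 11 * ν) := by
  have e : ν / 10 = 0.1 * ν := by ring
  rw [e]
  ext p
  simp only [RQ, IQ, mem_sdiff, mem_filter, not_and, not_le]
  constructor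
  · rintro ⟨h1, h2⟩
    exact ⟨h1, h2 h1, hmax p h1⟩
  · rintro ⟨h1, h2, _⟩
    exact ⟨h1, fun _ => h2⟩

lemma cls_pair (ν α β : ℝ) (hν : 0 < ν) (n : ℕ) (τ : ℝ) (h : ∀ x : ℝ, α < x → x ≤ β → cls x = (n, τ)) :
    ∀ p ∈ IQ Q (α * ν) (β * ν), RQ Q ((cls (Real.log p / ν)).2 * ν) = RQ Q (τ * ν) ∧
      FF (cls (Real.log p / ν)).1 = FF n := by
  intro p hp
  obtain ⟨_, h2, h3⟩ := mem_filter.1 hp
  rw [h (Real.log p / ν) (by rw [lt_div_iff₀ hν]; exact h2) (by rw [div_le_iff₀ hν]; exact h3)]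
  exact ⟨rfl, rfl⟩

lemma cls_1 (x : ℝ) (_ : 0.1 < x) (h2 : x ≤ 0.14) : cls x = (0, 0.1) := by
  unfold cls
  rw [if_pos h2]

lemma cls_2 (x : ℝ) (h1 : 0.14 < x) (h2 : x ≤ 0.19) : cls x = (0, 0.0942) := by
  unfold cls
  rw [if_neg (not_le.2 h1),
    if_pos h2]

lemma cls_3 (x : ℝ) (h1 : 0.19 < x) (h2 : x ≤ 0.27) : cls x = (1, 0.1) := by
  unfold cls
  rw [if_neg (not_le.2 (lt_trans (show (0.14 : ℝ) < 0.19 by norm_num) h1)),
    if_neg (not_le.2 h1),
    if_pos h2]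

lemma cls_4 (x : ℝ) (h1 : 0.27 < x) (h2 : x ≤ 0.37) : cls x = (1, 0.0999) := by
  unfold cls
  rw [if_neg (not_le.2 (lt_trans (show (0.14 : ℝ) < 0.27 by norm_num) h1)),
    if_neg (not_le.2 (lt_trans (show (0.19 : ℝ) < 0.27 by norm_num) h1)),
    if_neg (not_le.2 h1),
    if_pos h2]

lemma cls_5 (x : ℝ) (h1 : 0.37 < x) (h2 : x ≤ 0.48) : cls x = (2, 0.1) := by
  unfold cls
  rw [if_neg (not_le.2 (lt_trans (show (0.14 : ℝ) < 0.37 by norm_num) h1)),
    if_neg (not_le.2 (lt_trans (show (0.19 : ℝ) < 0.37 by norm_num) h1)),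
    if_neg (not_le.2 (lt_trans (show (0.27 : ℝ) < 0.37 by norm_num) h1)),
    if_neg (not_le.2 h1),
    if_pos h2]

lemma cls_6 (x : ℝ) (h1 : 0.48 < x) (h2 : x ≤ 0.55) : cls x = (3, 0.098) := by
  unfold cls
  rw [if_neg (not_le.2 (lt_trans (show (0.14 : ℝ) < 0.48 by norm_num) h1)),
    if_neg (not_le.2 (lt_trans (show (0.19 : ℝ) < 0.48 by norm_num) h1)),
    if_neg (not_le.2 (lt_trans (show (0.27 : ℝ) < 0.48 by norm_num) h1)),
    if_neg (not_le.2 (lt_trans (show (0.37 : ℝ) < 0.48 by norm_num) h1)),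
    if_neg (not_le.2 h1),
    if_pos h2]

lemma cls_7 (x : ℝ) (h1 : 0.55 < x) (h2 : x ≤ 0.62) : cls x = (3, 0.0826) := by
  unfold cls
  rw [if_neg (not_le.2 (lt_trans (show (0.14 : ℝ) < 0.55 by norm_num) h1)),
    if_neg (not_le.2 (lt_trans (show (0.19 : ℝ) < 0.55 by norm_num) h1)),
    if_neg (not_le.2 (lt_trans (show (0.27 : ℝ) < 0.55 by norm_num) h1)),
    if_neg (not_le.2 (lt_trans (show (0.37 : ℝ) < 0.55 by norm_num) h1)),
    if_neg (not_le.2 (lt_trans (show (0.48 : ℝ) < 0.55 by norm_num) h1)),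
    if_neg (not_le.2 h1),
    if_pos h2]

lemma cls_8 (x : ℝ) (h1 : 0.62 < x) (h2 : x ≤ 0.69) : cls x = (3, 0.0673) := by
  unfold cls
  rw [if_neg (not_le.2 (lt_trans (show (0.14 : ℝ) < 0.62 by norm_num) h1)),
    if_neg (not_le.2 (lt_trans (show (0.19 : ℝ) < 0.62 by norm_num) h1)),
    if_neg (not_le.2 (lt_trans (show (0.27 : ℝ) < 0.62 by norm_num) h1)),
    if_neg (not_le.2 (lt_trans (show (0.37 : ℝ) < 0.62 by norm_num) h1)),
    if_neg (not_le.2 (lt_trans (show (0.48 : ℝ) < 0.62 by norm_num) h1)),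
    if_neg (not_le.2 (lt_trans (show (0.55 : ℝ) < 0.62 by norm_num) h1)),
    if_neg (not_le.2 h1),
    if_pos h2]

lemma cls_9 (x : ℝ) (h1 : 0.69 < x) (h2 : x ≤ 0.75) : cls x = (3, 0.0542) := by
  unfold cls
  rw [if_neg (not_le.2 (lt_trans (show (0.14 : ℝ) < 0.69 by norm_num) h1)),
    if_neg (not_le.2 (lt_trans (show (0.19 : ℝ) < 0.69 by norm_num) h1)),
    if_neg (not_le.2 (lt_trans (show (0.27 : ℝ) < 0.69 by norm_num) h1)),
    if_neg (not_le.2 (lt_trans (show (0.37 : ℝ) < 0.69 by norm_num) h1)),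
    if_neg (not_le.2 (lt_trans (show (0.48 : ℝ) < 0.69 by norm_num) h1)),
    if_neg (not_le.2 (lt_trans (show (0.55 : ℝ) < 0.69 by norm_num) h1)),
    if_neg (not_le.2 (lt_trans (show (0.62 : ℝ) < 0.69 by norm_num) h1)),
    if_neg (not_le.2 h1),
    if_pos h2]

lemma cls_10 (x : ℝ) (h1 : 0.75 < x) (h2 : x ≤ 0.81) : cls x = (3, 0.0411) := by
  unfold cls
  rw [if_neg (not_le.2 (lt_trans (show (0.14 : ℝ) < 0.75 by norm_num) h1)),
    if_neg (not_le.2 (lt_trans (show (0.19 : ℝ) < 0.75 by norm_num) h1)),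
    if_neg (not_le.2 (lt_trans (show (0.27 : ℝ) < 0.75 by norm_num) h1)),
    if_neg (not_le.2 (lt_trans (show (0.37 : ℝ) < 0.75 by norm_num) h1)),
    if_neg (not_le.2 (lt_trans (show (0.48 : ℝ) < 0.75 by norm_num) h1)),
    if_neg (not_le.2 (lt_trans (show (0.55 : ℝ) < 0.75 by norm_num) h1)),
    if_neg (not_le.2 (lt_trans (show (0.62 : ℝ) < 0.75 by norm_num) h1)),
    if_neg (not_le.2 (lt_trans (show (0.69 : ℝ) < 0.75 by norm_num) h1)),
    if_neg (not_le.2 h1),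
    if_pos h2]

lemma cls_11 (x : ℝ) (h1 : 0.81 < x) (h2 : x ≤ 0.86) : cls x = (3, 0.0301) := by
  unfold cls
  rw [if_neg (not_le.2 (lt_trans (show (0.14 : ℝ) < 0.81 by norm_num) h1)),
    if_neg (not_le.2 (lt_trans (show (0.19 : ℝ) < 0.81 by norm_num) h1)),
    if_neg (not_le.2 (lt_trans (show (0.27 : ℝ) < 0.81 by norm_num) h1)),
    if_neg (not_le.2 (lt_trans (show (0.37 : ℝ) < 0.81 by norm_num) h1)),
    if_neg (not_le.2 (lt_trans (show (0.48 : ℝ) < 0.81 by norm_num) h1)),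
    if_neg (not_le.2 (lt_trans (show (0.55 : ℝ) < 0.81 by norm_num) h1)),
    if_neg (not_le.2 (lt_trans (show (0.62 : ℝ) < 0.81 by norm_num) h1)),
    if_neg (not_le.2 (lt_trans (show (0.69 : ℝ) < 0.81 by norm_num) h1)),
    if_neg (not_le.2 (lt_trans (show (0.75 : ℝ) < 0.81 by norm_num) h1)),
    if_neg (not_le.2 h1),
    if_pos h2]

lemma cls_12 (x : ℝ) (h1 : 0.86 < x) (_ : x ≤ 10 / 11) : cls x = (3, 0.0194) := by
  unfold cls
  rw [if_neg (not_le.2 (lt_trans (show (0.14 : ℝ) < 0.86 by norm_num) h1)),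
    if_neg (not_le.2 (lt_trans (show (0.19 : ℝ) < 0.86 by norm_num) h1)),
    if_neg (not_le.2 (lt_trans (show (0.27 : ℝ) < 0.86 by norm_num) h1)),
    if_neg (not_le.2 (lt_trans (show (0.37 : ℝ) < 0.86 by norm_num) h1)),
    if_neg (not_le.2 (lt_trans (show (0.48 : ℝ) < 0.86 by norm_num) h1)),
    if_neg (not_le.2 (lt_trans (show (0.55 : ℝ) < 0.86 by norm_num) h1)),
    if_neg (not_le.2 (lt_trans (show (0.62 : ℝ) < 0.86 by norm_num) h1)),
    if_neg (not_le.2 (lt_trans (show (0.69 : ℝ) < 0.86 by norm_num) h1)),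
    if_neg (not_le.2 (lt_trans (show (0.75 : ℝ) < 0.86 by norm_num) h1)),
    if_neg (not_le.2 (lt_trans (show (0.81 : ℝ) < 0.86 by norm_num) h1)),
    if_neg (not_le.2 h1)]

/-- the constant of one class -/
noncomputable def cc (α τ L : ℝ) (n : ℕ) : ℝ :=
  5 / 9 * (1 - 1.1 * α) * L * ((1.0084 * 1.11152 ^ n) * (1.0005 * (1 / (10 * τ))))

/-- the sum over one class, with the logarithm bounded by the exponential series -/
lemma one_class (hd : Dens Q a) (ν : ℝ) (hν : 0 < ν) (α β τ c L : ℝ) (n : ℕ) (hα : 0 < α) (hαβ : α ≤ β)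
    (hβ : β ≤ 10 / 11) (hτ : 0.019 ≤ τ) (hτ1 : τ ≤ 1 / 10) (hc : 0 ≤ c) (hL : L = c + 0.00001)
    (hr : β / α ≤ 1 + c + c ^ 2 / 2 + c ^ 3 / 6 + c ^ 4 / 24 + c ^ 5 / 120)
    (h : ∀ x : ℝ, α < x → x ≤ β → cls x = (n, τ)) :
    ∑ p ∈ IQ Q (α * ν) (β * ν), (5 / 9 * (1 - 1.1 * Real.log p / ν)) * a p *
      (FF (cls (Real.log p / ν)).1 * ∏ q ∈ RQ Q ((cls (Real.log p / ν)).2 * ν), (1 - a q)) ≤
      cc α τ L n * ∏ q ∈ RQ Q (ν / 10), (1 - a q) := by
  have h1 := log_ub (β / α) c (div_pos (hα.trans_le hαβ) hα) hc hr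
  exact class_sum hd ν hν α β τ L (1.0084 * 1.11152 ^ n) n hα hαβ hβ hτ hτ1
    (by rw [hL]; exact add_le_add_left h1 _ |>.trans_eq rfl) (FF_ub n)
    (fun p => RQ Q ((cls (Real.log p / ν)).2 * ν)) (fun p => FF (cls (Real.log p / ν)).1)
    (cls_pair ν α β hν n τ h)

/-- the total over the large elements -/
lemma total_sum (hd : Dens Q a) (ν : ℝ) (hν : 0 < ν) :
    ∑ p ∈ IQ Q (0.1 * ν) (10 / 11 * ν), (5 / 9 * (1 - 1.1 * Real.log p / ν)) * a p *
      (FF (cls (Real.log p / ν)).1 * ∏ q ∈ RQ Q ((cls (Real.log p / ν)).2 * ν), (1 - a q)) ≤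
      0.9608 * ∏ q ∈ RQ Q (ν / 10), (1 - a q) := by
  have hV0 : 0 ≤ ∏ q ∈ RQ Q (ν / 10), (1 - a q) :=
    prod_nonneg fun p hp => by linarith [(hd.le_one p (mem_filter.1 hp).1).2]

  have t1 := one_class hd ν hν 0.1 0.14 0.1 0.33648 0.33649 0 (by norm_num) (by norm_num) (by norm_num) (by norm_num)
    (by norm_num) (by norm_num) (by norm_num) (by norm_num) cls_1
  have t2 := one_class hd ν hν 0.14 0.19 0.0942 0.30539 0.30540 0 (by norm_num) (by norm_num) (by norm_num) (by norm_num)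
    (by norm_num) (by norm_num) (by norm_num) (by norm_num) cls_2
  have t3 := one_class hd ν hν 0.19 0.27 0.1 0.35141 0.35142 1 (by norm_num) (by norm_num) (by norm_num) (by norm_num)
    (by norm_num) (by norm_num) (by norm_num) (by norm_num) cls_3
  have t4 := one_class hd ν hν 0.27 0.37 0.0999 0.31509 0.31510 1 (by norm_num) (by norm_num) (by norm_num) (by norm_num)
    (by norm_num) (by norm_num) (by norm_num) (by norm_num) cls_4
  have t5 := one_class hd ν hν 0.37 0.48 0.1 0.26029 0.26030 2 (by norm_num) (by norm_num) (by norm_num) (by norm_num)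
    (by norm_num) (by norm_num) (by norm_num) (by norm_num) cls_5
  have t6 := one_class hd ν hν 0.48 0.55 0.098 0.13614 0.13615 3 (by norm_num) (by norm_num) (by norm_num) (by norm_num)
    (by norm_num) (by norm_num) (by norm_num) (by norm_num) cls_6
  have t7 := one_class hd ν hν 0.55 0.62 0.0826 0.11981 0.11982 3 (by norm_num) (by norm_num) (by norm_num) (by norm_num)
    (by norm_num) (by norm_num) (by norm_num) (by norm_num) cls_7
  have t8 := one_class hd ν hν 0.62 0.69 0.0673 0.10698 0.10699 3 (by norm_num) (by norm_num) (by norm_num) (by norm_num)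
    (by norm_num) (by norm_num) (by norm_num) (by norm_num) cls_8
  have t9 := one_class hd ν hν 0.69 0.75 0.0542 0.08339 0.08340 3 (by norm_num) (by norm_num) (by norm_num) (by norm_num)
    (by norm_num) (by norm_num) (by norm_num) (by norm_num) cls_9
  have t10 := one_class hd ν hν 0.75 0.81 0.0411 0.07697 0.07698 3 (by norm_num) (by norm_num) (by norm_num) (by norm_num)
    (by norm_num) (by norm_num) (by norm_num) (by norm_num) cls_10
  have t11 := one_class hd ν hν 0.81 0.86 0.0301 0.05991 0.05992 3 (by norm_num) (by norm_num) (by norm_num) (by norm_num)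
    (by norm_num) (by norm_num) (by norm_num) (by norm_num) cls_11
  have t12 := one_class hd ν hν 0.86 (10 / 11) 0.0194 0.05552 0.05553 3 (by norm_num) (by norm_num) (by norm_num) (by norm_num)
    (by norm_num) (by norm_num) (by norm_num) (by norm_num) cls_12
  rw [IQ_split Q (0.1 * ν) (0.14 * ν) (10 / 11 * ν) (mul_le_mul_of_nonneg_right (by norm_num) hν.le)
    (mul_le_mul_of_nonneg_right (by norm_num) hν.le)]
  rw [IQ_split Q (0.14 * ν) (0.19 * ν) (10 / 11 * ν) (mul_le_mul_of_nonneg_right (by norm_num) hν.le)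
    (mul_le_mul_of_nonneg_right (by norm_num) hν.le)]
  rw [IQ_split Q (0.19 * ν) (0.27 * ν) (10 / 11 * ν) (mul_le_mul_of_nonneg_right (by norm_num) hν.le)
    (mul_le_mul_of_nonneg_right (by norm_num) hν.le)]
  rw [IQ_split Q (0.27 * ν) (0.37 * ν) (10 / 11 * ν) (mul_le_mul_of_nonneg_right (by norm_num) hν.le)
    (mul_le_mul_of_nonneg_right (by norm_num) hν.le)]
  rw [IQ_split Q (0.37 * ν) (0.48 * ν) (10 / 11 * ν) (mul_le_mul_of_nonneg_right (by norm_num) hν.le)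
    (mul_le_mul_of_nonneg_right (by norm_num) hν.le)]
  rw [IQ_split Q (0.48 * ν) (0.55 * ν) (10 / 11 * ν) (mul_le_mul_of_nonneg_right (by norm_num) hν.le)
    (mul_le_mul_of_nonneg_right (by norm_num) hν.le)]
  rw [IQ_split Q (0.55 * ν) (0.62 * ν) (10 / 11 * ν) (mul_le_mul_of_nonneg_right (by norm_num) hν.le)
    (mul_le_mul_of_nonneg_right (by norm_num) hν.le)]
  rw [IQ_split Q (0.62 * ν) (0.69 * ν) (10 / 11 * ν) (mul_le_mul_of_nonneg_right (by norm_num) hν.le)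
    (mul_le_mul_of_nonneg_right (by norm_num) hν.le)]
  rw [IQ_split Q (0.69 * ν) (0.75 * ν) (10 / 11 * ν) (mul_le_mul_of_nonneg_right (by norm_num) hν.le)
    (mul_le_mul_of_nonneg_right (by norm_num) hν.le)]
  rw [IQ_split Q (0.75 * ν) (0.81 * ν) (10 / 11 * ν) (mul_le_mul_of_nonneg_right (by norm_num) hν.le)
    (mul_le_mul_of_nonneg_right (by norm_num) hν.le)]
  rw [IQ_split Q (0.81 * ν) (0.86 * ν) (10 / 11 * ν) (mul_le_mul_of_nonneg_right (by norm_num) hν.le)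
    (mul_le_mul_of_nonneg_right (by norm_num) hν.le)]
  refine (add_le_add t1 (add_le_add t2 (add_le_add t3 (add_le_add t4 (add_le_add t5 (add_le_add t6 (add_le_add t7 (add_le_add t8 (add_le_add t9 (add_le_add t10 (add_le_add t11 t12))))))))))).trans ?_
  simp only [← add_mul]
  refine mul_le_mul_of_nonneg_right ?_ hV0
  unfold cc
  norm_num

/-- **existence of the weights** -/
theorem weights (hd : Dens Q a) (ν : ℝ) (hν : 0 < ν) (m : ℕ) (hemp : RQ Q (ν / 8 ^ m) = ∅)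
    (hmax : ∀ p ∈ Q, Real.log p ≤ 10 / 11 * ν) :
    ∃ l1 l2 : Finset ℕ → ℝ, (∀ U, |l1 U| ≤ 1 ∧ |l2 U| ≤ 3 * m + 1) ∧
      (∀ U, U ⊆ Q → Real.exp (0.9985 * ν) < ∏ p ∈ U, (p : ℝ) → l1 U = 0 ∧ l2 U = 0) ∧
      (∀ S, 0 ≤ gen Q l1 (ind S) ∧ 0 ≤ gen Q l2 (ind S) ∧
        gen Q l1 (ind S) - gen Q l2 (ind S) ≤ miss (RQ Q (ν / 10)) S *
          (1 - ∑ p ∈ (Q \ RQ Q (ν / 10)) ∩ S, 5 / 9 * (1 - 1.1 * Real.log p / ν))) ∧
      ∏ p ∈ RQ Q (ν / 10), (1 - a p) ≤ gen Q l1 a ∧ 0 ≤ gen Q l2 a ∧ gen Q l2 a ≤ 0.97 * gen Q l1 a := by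
  have hRQ : RQ Q (ν / 10) ⊆ Q := filter_subset _ _
  have hlo := lo_tail hd m (ν / 10) 4 (by positivity) (by decide) le_rfl (by
    apply RQ_emp Q _ _ _ hemp
    apply div_le_div_of_nonneg_right _ (by positivity)
    linarith)
  obtain ⟨l1, l2, h1, h2, h3, h4, h5, h6⟩ := compose Q (RQ Q (ν / 10)) hRQ a hd.le_one _ _ _ _
    (Real.exp (0.9985 * ν)) hlo (fun p => 5 / 9 * (1 - 1.1 * Real.log p / ν)) (by
      intro p hp
      rw [sdiff_RQ ν hmax] at hp
      obtain ⟨q1, q2, q3⟩ := mem_filter.1 hp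
      have e1 : 1.1 * Real.log p / ν = 1.1 * (Real.log p / ν) := by ring
      have e2 : Real.log p / ν ≤ 10 / 11 := by
        rw [div_le_iff₀ hν]
        exact q3
      have e3 : 0 ≤ Real.log p / ν := by
        apply div_nonneg _ hν.le
        nlinarith
      rw [e1]
      constructor
      · linarith
      · linarith)
    (fun p => RQ Q ((cls (Real.log p / ν)).2 * ν))
    (fun p => Real.exp ((cls (Real.log p / ν)).2 * ν * KK (cls (Real.log p / ν)).1))
    (fun p => FF (cls (Real.log p / ν)).1) (by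
      intro p hp
      rw [sdiff_RQ ν hmax] at hp
      obtain ⟨q1, q2, q3⟩ := mem_filter.1 hp
      have hx : Real.log p / ν ≤ 10 / 11 := by
        rw [div_le_iff₀ hν]
        exact q3
      obtain ⟨c1, c2, c3⟩ := cls_ok _ hx
      set x := Real.log p / ν with hxd
      have hp0 : (0 : ℝ) < p := by exact_mod_cast hd.pos p q1
      refine ⟨RQ_sub Q _ _ (by nlinarith), ?_, ?_⟩
      · apply up_fam hd m (cls x).1 _ (by nlinarith)
        apply RQ_emp Q _ _ _ hemp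
        apply div_le_div_of_nonneg_right _ (by positivity)
        rw [div_le_iff₀ (by positivity)]
        have e1 : (1 : ℝ) ≤ 2 ^ (cls x).1 := one_le_pow₀ (by norm_num)
        nlinarith
      · have e1 : (p : ℝ) = Real.exp (x * ν) := by
          rw [hxd, div_mul_cancel₀ _ hν.ne', Real.exp_log hp0]
        have e2 : (p : ℝ) * Real.exp ((cls x).2 * ν * KK (cls x).1) =
            Real.exp (x * ν) * Real.exp ((cls x).2 * ν * KK (cls x).1) := by rw [← e1]
        rw [e2, ← Real.exp_add]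
        apply Real.exp_le_exp.2
        have e3 : x * ν + (cls x).2 * ν * KK (cls x).1 = (x + (cls x).2 * KK (cls x).1) * ν := by ring
        rw [e3]
        exact mul_le_mul_of_nonneg_right c3 hν.le)
    (by
      apply Real.exp_le_exp.2
      push_cast
      nlinarith)
    (by
      rw [← Real.exp_add]
      apply Real.exp_le_exp.2
      push_cast
      nlinarith)
  refine ⟨l1, l2, h1, h2, h3, h4, h5, h6.trans ?_⟩
  rw [sdiff_RQ ν hmax]
  have h7 := total_sum hd ν hν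
  have h8 := Xb4_ub
  have h9 : 0 ≤ gen Q l1 a := by
    refine le_trans ?_ h4
    exact prod_nonneg fun p hp => by linarith [(hd.le_one p (mem_filter.1 hp).1).2]
  nlinarith

end Pool.Agent.H16.P3
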