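import Pool.Agent.H14.VC.Main
import Pool.Agent.H16.P3.Weights
import Pool.Agent.H16.P3.DensQ

/-!
# The weighted sum over the differences: pointwise bounds
-/

set_option autoImplicit false

namespace Pool.Agent.H16.P3

open Finset
open Pool.Agent.H14.VC

/-- the difference is good -/
def Good (Q R : Finset ℕ) (c : ℕ → ℝ) (z : ℕ) (n : ℤ) : Prop :=
  (∀ q ∈ Pz z, ¬ T4 q n) ∧ (∀ p ∈ R, ¬ T4 p n) ∧
    (by classical exact ∑ p ∈ (Q \ R).filter (fun p => T4 p n), c p < 1)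

open Classical in
lemma gen_ind_T (Q : Finset ℕ) (l : Finset ℕ → ℝ) (n : ℤ) :
    ∑ U ∈ Q.powerset, l U * ∏ p ∈ U, (if T4 p n then (1 : ℝ) else 0) =
      gen Q l (ind (Q.filter (fun p => T4 p n))) := by
  unfold gen
  apply sum_congr rfl
  intro U hU
  rw [mem_powerset] at hU
  congr 1
  apply prod_congr rfl
  intro p hp
  unfold ind
  by_cases h : T4 p n
  · rw [if_pos h, if_pos (mem_filter.2 ⟨hU hp, h⟩)]
  · rw [if_neg h, if_neg (fun h' : p ∈ Q.filter (fun p => T4 p n) => h (mem_filter.1 h').2)]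

open Classical in
lemma pt_upper (Q R : Finset ℕ) (hRQ : R ⊆ Q) (c : ℕ → ℝ) (hc : ∀ p ∈ Q \ R, 0 ≤ c p) (l1 l2 : Finset ℕ → ℝ)
    (h : ∀ S, 0 ≤ gen Q l1 (ind S) ∧ 0 ≤ gen Q l2 (ind S) ∧
        gen Q l1 (ind S) - gen Q l2 (ind S) ≤ miss R S * (1 - ∑ p ∈ (Q \ R) ∩ S, c p))
    (z : ℕ) (n : ℤ) (X : ℝ) :
    X ^ 2 * ((1 - ∑ q ∈ Pz z, (if T4 q n then (1 : ℝ) else 0)) *
      (∑ U ∈ Q.powerset, l1 U * ∏ p ∈ U, (if T4 p n then (1 : ℝ) else 0)) -
      ∑ U ∈ Q.powerset, l2 U * ∏ p ∈ U, (if T4 p n then (1 : ℝ) else 0)) ≤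
      if Good Q R c z n then X ^ 2 else 0 := by
  rw [gen_ind_T, gen_ind_T]
  obtain ⟨h1, h2, h3⟩ := h (Q.filter (fun p => T4 p n))
  set S := Q.filter (fun p => T4 p n) with hS
  have hX := sq_nonneg X
  have hset : (Q \ R) ∩ S = (Q \ R).filter (fun p => T4 p n) := by
    ext p
    simp only [hS, mem_inter, mem_filter, mem_sdiff]
    tauto
  rw [hset] at h3
  have hsum0 : 0 ≤ ∑ p ∈ (Q \ R).filter (fun p => T4 p n), c p :=
    sum_nonneg fun p hp => hc p (mem_filter.1 hp).1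
  by_cases hq : ∀ q ∈ Pz z, ¬ T4 q n
  · have e0 : ∑ q ∈ Pz z, (if T4 q n then (1 : ℝ) else 0) = 0 :=
      sum_eq_zero fun q hq' => by rw [if_neg (hq q hq')]
    rw [e0, sub_zero, one_mul]
    by_cases hm : ∀ p ∈ R, ¬ T4 p n
    · have hmiss : miss R S = 1 := by
        unfold miss
        rw [if_pos]
        rw [disjoint_left]
        intro p hp hpR
        exact hm p hpR (mem_filter.1 hp).2
      rw [hmiss, one_mul] at h3
      by_cases hs : ∑ p ∈ (Q \ R).filter (fun p => T4 p n), c p < 1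
      · rw [if_pos ⟨hq, hm, hs⟩]
        nlinarith
      · rw [if_neg (fun h' => hs h'.2.2)]
        push Not at hs
        nlinarith
    · rw [if_neg (fun h' => hm h'.2.1)]
      push Not at hm
      obtain ⟨p, hp, hpT⟩ := hm
      have hmiss : miss R S = 0 := by
        unfold miss
        rw [if_neg]
        intro hd
        exact (disjoint_left.1 hd) (mem_filter.2 ⟨hRQ hp, hpT⟩) hp
      rw [hmiss, zero_mul] at h3
      nlinarith
  · rw [if_neg (fun h' => hq h'.1)]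
    push Not at hq
    obtain ⟨q, hq, hT⟩ := hq
    have e1 : (1 : ℝ) ≤ ∑ q ∈ Pz z, (if T4 q n then (1 : ℝ) else 0) := by
      have h2 : (if T4 q n then (1 : ℝ) else 0) ≤ ∑ q ∈ Pz z, (if T4 q n then (1 : ℝ) else 0) := by
        apply single_le_sum (f := fun q => if T4 q n then (1 : ℝ) else 0) _ hq
        intro i _
        positivity
      rw [if_pos hT] at h2
      exact h2
    have e2 : (1 - ∑ q ∈ Pz z, (if T4 q n then (1 : ℝ) else 0)) * gen Q l1 (ind S) ≤ 0 :=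
      mul_nonpos_of_nonpos_of_nonneg (by linarith) h1
    nlinarith

open Classical in
/-- the upper bound for the pair sum -/
lemma pair_upper (A Q R : Finset ℕ) (c : ℕ → ℝ) (z : ℕ) (X F : ℤ → ℝ) (D0 E : ℝ)
    (hF : ∀ n, F n ≤ if Good Q R c z n then X n ^ 2 else 0)
    (h0 : |X 0| ≤ D0)
    (h1 : ∀ n : ℤ, n ≠ 0 → (∃ a ∈ A, ∃ b ∈ A, n = (b : ℤ) - a) → Good Q R c z n → |X n| ≤ E)
    (S : Finset (ℕ × ℕ)) (hS : ∀ a b : ℕ, (a, b) ∈ S ↔ (a ∈ A ∧ b ∈ A) ∧ a ≠ b ∧ Good Q R c z ((b : ℤ) - a)) :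
    PS A F ≤ D0 ^ 2 * A.card + E ^ 2 * S.card := by
  have hpt : ∀ a ∈ A, ∀ b ∈ A, F ((b : ℤ) - a) ≤ (if a = b then D0 ^ 2 else 0) +
      (if (a, b) ∈ S then E ^ 2 else 0) := by
    intro a ha b hb
    refine (hF _).trans ?_
    by_cases hab : a = b
    · subst hab
      rw [if_pos (rfl : a = a), if_neg (fun h => ((hS a a).1 h).2.1 rfl), add_zero, sub_self]
      split_ifs
      · rw [← sq_abs]
        exact pow_le_pow_left₀ (abs_nonneg _) h0 2
      · positivity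
    · rw [if_neg hab, zero_add]
      by_cases hg : Good Q R c z ((b : ℤ) - a)
      · rw [if_pos hg, if_pos ((hS a b).2 ⟨⟨ha, hb⟩, hab, hg⟩), ← sq_abs]
        apply pow_le_pow_left₀ (abs_nonneg _)
        apply h1 _ _ ⟨a, ha, b, hb, rfl⟩ hg
        intro h
        apply hab
        omega
      · rw [if_neg hg, if_neg (fun h => hg ((hS a b).1 h).2.2)]
  unfold PS
  refine (sum_le_sum fun a ha => sum_le_sum fun b hb => hpt a ha b hb).trans ?_
  rw [sum_congr rfl fun a _ => sum_add_distrib, sum_add_distrib]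
  apply add_le_add
  · have : ∀ a ∈ A, ∑ b ∈ A, (if a = b then D0 ^ 2 else 0) = D0 ^ 2 := by
      intro a ha
      rw [sum_ite_eq A a, if_pos ha]
    rw [sum_congr rfl this, sum_const, nsmul_eq_mul, mul_comm]
  · have hsub : S ⊆ A ×ˢ A := by
      rintro ⟨a, b⟩ h
      exact mem_product.2 ((hS a b).1 h).1
    have h2 := sum_product A A (fun ab : ℕ × ℕ => if ab ∈ S then E ^ 2 else 0)
    rw [← h2, ← sum_filter, filter_mem_eq_inter, inter_eq_right.2 hsub, sum_const, nsmul_eq_mul, mul_comm]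

lemma good_even (Q R : Finset ℕ) (c : ℕ → ℝ) (z : ℕ) (n : ℤ) : Good Q R c z n ↔ Good Q R c z (-n) := by
  have key : ∀ n : ℤ, Good Q R c z n → Good Q R c z (-n) := by
    intro n h
    unfold Good at h ⊢
    obtain ⟨h1, h2, h3⟩ := h
    refine ⟨fun q hq h => h1 q hq ((T4_even q n).2 h), fun q hq h => h2 q hq ((T4_even q n).2 h), ?_⟩
    convert h3 using 2
    ext p
    simp only [mem_filter]
    rw [← T4_even p n]
  exact ⟨key n, fun h => by
    have := key (-n) h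
    rwa [neg_neg] at this⟩

end Pool.Agent.H16.P3
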